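import Mathlib

/-!
# Positive definite forms on abelian groups, abstractly

A `Form G` is a symmetric biadditive positive form on an abelian group `G` for which every
nonempty set of vectors has a vector of minimal norm.
-/

set_option autoImplicit false

namespace Pool.H48.Vonorm

/-- A positive symmetric biadditive form for which minima over nonempty sets are attained. -/
structure Form (G : Type*) [AddCommGroup G] where
  /-- the bilinear form -/
  b : G → G → ℝ
  add_left : ∀ x y z, b (x + y) z = b x z + b y z
  comm : ∀ x y, b x y = b y x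
  pos : ∀ x, x ≠ 0 → 0 < b x x
  wf : ∀ T : Set G, T.Nonempty → ∃ x ∈ T, ∀ y ∈ T, b x x ≤ b y y

namespace Form

variable {G : Type*} [AddCommGroup G] (F : Form G)

lemma add_right (x y z : G) : F.b x (y + z) = F.b x y + F.b x z := by
  rw [F.comm, F.add_left, F.comm y x, F.comm z x]

lemma zero_left (x : G) : F.b 0 x = 0 := by
  have := F.add_left 0 0 x
  simp only [add_zero] at this
  linarith

lemma zero_right (x : G) : F.b x 0 = 0 := by
  rw [F.comm, F.zero_left]

lemma neg_left (x y : G) : F.b (-x) y = - F.b x y := by
  have := F.add_left x (-x) y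
  rw [add_neg_cancel, F.zero_left] at this
  linarith

lemma neg_right (x y : G) : F.b x (-y) = - F.b x y := by
  rw [F.comm, F.neg_left, F.comm]

lemma sub_left (x y z : G) : F.b (x - y) z = F.b x z - F.b y z := by
  rw [sub_eq_add_neg, F.add_left, F.neg_left]; ring

lemma sub_right (x y z : G) : F.b x (y - z) = F.b x y - F.b x z := by
  rw [sub_eq_add_neg, F.add_right, F.neg_right]; ring

/-- norm of a vector -/
def nm (x : G) : ℝ := F.b x x

lemma nm_neg (x : G) : F.nm (-x) = F.nm x := by
  simp only [nm, neg_left, neg_right, neg_neg]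

lemma nm_add (x y : G) : F.nm (x + y) = F.nm x + F.nm y + 2 * F.b x y := by
  simp only [nm, add_left, add_right, F.comm y x]; ring

lemma nm_sub (x y : G) : F.nm (x - y) = F.nm x + F.nm y - 2 * F.b x y := by
  simp only [nm, sub_left, sub_right, F.comm y x]; ring

/-- `x` is a shortest vector of its class modulo `2G`. -/
def CMin (x : G) : Prop := ∀ w : G, F.nm x ≤ F.nm (x + (w + w))

lemma exists_cmin (x : G) : ∃ w : G, F.CMin (x + (w + w)) := by
  obtain ⟨y, ⟨w, rfl⟩, hy⟩ := F.wf (Set.range fun w : G => x + (w + w)) ⟨x + (0 + 0), ⟨0, rfl⟩⟩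
  refine ⟨w, fun w' => ?_⟩
  have := hy (x + ((w + w') + (w + w'))) ⟨w + w', rfl⟩
  have h2 : x + (w + w) + (w' + w') = x + ((w + w') + (w + w')) := by abel
  rw [h2]
  exact this

/-- The key lemma: if `u` is a shortest vector outside `V` and `v` a shortest vector outside `W`,
and `u ∈ W`, then one of `u + v`, `u - v` is a shortest vector of its class modulo `2G`. -/
lemma key {V W : AddSubgroup G} {u v t w : G} (huW : u ∈ W) (huV : u ∉ V) (hvW : v ∉ W)
    (hu : ∀ x, x ∉ V → F.nm u ≤ F.nm x) (hv : ∀ x, x ∉ W → F.nm v ≤ F.nm x)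
    (ht : t = u + v + (w + w)) (hmin : F.CMin t) :
    F.nm (u + v) = F.nm t ∨ F.nm (u - v) = F.nm t := by
  have e1 : F.nm t ≤ F.nm (u + v) := by
    have := hmin (-w)
    have h3 : t + (-w + -w) = u + v := by rw [ht]; abel
    rwa [h3] at this
  have e2 : F.nm t ≤ F.nm (u - v) := by
    have := hmin (-w - v)
    have h3 : t + ((-w - v) + (-w - v)) = u - v := by rw [ht]; abel
    rwa [h3] at this
  -- identities
  have i1 : F.nm (u + v + w) + F.nm (v + w) + F.nm (u + w) + F.nm w
      = F.nm u + F.nm v + F.nm t := by
    rw [ht]; simp only [nm, add_left, add_right, F.comm v u, F.comm w u, F.comm w v]; ring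
  have i2 : F.nm (u + v) + F.nm t = 2 * (F.nm (u + v + w) + F.nm w) := by
    rw [ht]; simp only [nm, add_left, add_right, F.comm v u, F.comm w u, F.comm w v]; ring
  have i3 : F.nm (u - v) + F.nm t = 2 * (F.nm (v + w) + F.nm (u + w)) := by
    rw [ht]
    simp only [nm, add_left, add_right, sub_left, sub_right, F.comm v u, F.comm w u, F.comm w v]
    ring
  by_cases hq : u + v + w ∈ W
  · have hvq : u + w ∉ W := fun h => hvW (by
      have := W.sub_mem hq h
      have h3 : u + v + w - (u + w) = v := by abel
      rwa [h3] at this)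
    have htq : w ∉ W := fun h => hvq (W.add_mem huW h)
    by_cases hV : u + v + w ∈ V
    · have hV2 : v + w ∉ V := fun h => huV (by
        have := V.sub_mem hV h
        have h3 : u + v + w - (v + w) = u := by abel
        rwa [h3] at this)
      have a1 := hu _ hV2
      have a2 := hv _ hvq
      left
      linarith
    · have a1 := hu _ hV
      have a2 := hv _ htq
      right
      linarith
  · have huq : v + w ∉ W := fun h => hq (by
      have := W.add_mem huW h
      have h3 : u + (v + w) = u + v + w := by abel
      rwa [h3] at this)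
    by_cases hV : w ∈ V
    · have hV2 : u + w ∉ V := fun h => huV (by
        have := V.sub_mem h hV
        have h3 : u + w - w = u := by abel
        rwa [h3] at this)
      have a1 := hu _ hV2
      have a2 := hv _ huq
      left
      linarith
    · have a1 := hu _ hV
      have a2 := hv _ hq
      right
      linarith

/-- a subgroup containing all the class-minimal vectors is everything. -/
lemma descent (M : AddSubgroup G) (hM : ∀ y, F.CMin y → y ∈ M) (x : G) : x ∈ M := by
  by_contra hx
  obtain ⟨x, hx, hmin⟩ := F.wf {x | x ∉ M} ⟨x, hx⟩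
  obtain ⟨w, hw⟩ := F.exists_cmin x
  have hyM := hM _ hw
  set y := x + (w + w) with hy
  have hx0 : x ≠ 0 := fun h => hx (by rw [h]; exact M.zero_mem)
  have hpos := F.pos x hx0
  have hle : F.nm y ≤ F.nm x := by
    have := hw (-w)
    have h3 : y + (-w + -w) = x := by rw [hy]; abel
    rwa [h3] at this
  -- x = y + 2 (-w)
  have hw1 : w ∉ M := fun h => hx (by
    have := M.sub_mem hyM (M.add_mem h h)
    have h3 : y - (w + w) = x := by rw [hy]; abel
    rwa [h3] at this)
  have hw2 : x + w ∉ M := fun h => hw1 (by
    have := M.sub_mem hyM h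
    have h3 : y - (x + w) = w := by rw [hy]; abel
    rwa [h3] at this)
  have b1 := hmin _ hw1
  have b2 := hmin _ hw2
  have i1 : F.nm y + F.nm x = 2 * (F.nm w + F.nm (x + w)) := by
    rw [hy]; simp only [nm, add_left, add_right, F.comm w x]; ring
  change 0 < F.nm x at hpos
  change F.nm x ≤ F.nm w at b1
  change F.nm x ≤ F.nm (x + w) at b2
  linarith

end Form

end Pool.H48.Vonorm
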