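import Mathlib
import Pool.Agent.H48.Vonorm.Form

/-!
# Simultaneous greedy systems for two forms with the same vonorms
-/

set_option autoImplicit false

open Matrix

namespace Pool.H48.Vonorm

variable {n : ℕ}

/-- reduction modulo two -/
def red : (Fin n → ℤ) →+ (Fin n → ZMod 2) where
  toFun x := fun i => (x i : ZMod 2)
  map_zero' := by ext i; simp
  map_add' x y := by ext i; simp

lemma red_apply (x : Fin n → ℤ) (i : Fin n) : red x i = (x i : ZMod 2) := rfl

lemma red_eq_iff (x y : Fin n → ℤ) : red x = red y ↔ ∃ w, y = x + (w + w) := by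
  constructor
  · intro h
    refine ⟨fun i => (y i - x i) / 2, ?_⟩
    ext i
    have h1 : ((x i : ℤ) : ZMod 2) = ((y i : ℤ) : ZMod 2) := congrFun h i
    have h2 : (2 : ℤ) ∣ y i - x i := by
      have := (ZMod.intCast_eq_intCast_iff_dvd_sub (x i) (y i) 2).mp h1
      exact_mod_cast this
    simp only [Pi.add_apply]
    omega
  · rintro ⟨w, rfl⟩
    ext i
    simp only [red_apply, Pi.add_apply, Int.cast_add]
    have : (w i : ZMod 2) + (w i : ZMod 2) = 0 := CharTwo.add_self_eq_zero _
    rw [this, add_zero]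

lemma red_surj (c : Fin n → ZMod 2) : ∃ x : Fin n → ℤ, red x = c := by
  refine ⟨fun i => ((c i).val : ℤ), ?_⟩
  ext i
  simp [red_apply]

/-- hypothesis: the two forms have the same vonorms -/
def Same (F F' : Form (Fin n → ℤ)) : Prop :=
  ∀ y z, red y = red z → F.CMin y → F'.CMin z → F.nm y = F'.nm z

/-- span modulo two of the first `k` vectors -/
def Sp (y : ℕ → Fin n → ℤ) (k : ℕ) : Submodule (ZMod 2) (Fin n → ZMod 2) :=
  Submodule.span (ZMod 2) (Set.range fun j : Fin k => red (y j))

lemma Sp_congr {y y' : ℕ → Fin n → ℤ} {k : ℕ} (h : ∀ j < k, y j = y' j) : Sp y k = Sp y' k := by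
  unfold Sp
  congr 1
  ext v
  constructor
  · rintro ⟨j, rfl⟩; exact ⟨j, by simp [h j j.2]⟩
  · rintro ⟨j, rfl⟩; exact ⟨j, by simp [h j j.2]⟩

lemma Sp_mono (y : ℕ → Fin n → ℤ) {k l : ℕ} (h : k ≤ l) : Sp y k ≤ Sp y l := by
  unfold Sp
  apply Submodule.span_mono
  rintro _ ⟨j, rfl⟩
  exact ⟨⟨j, j.2.trans_le h⟩, rfl⟩

lemma mem_Sp (y : ℕ → Fin n → ℤ) {i k : ℕ} (h : i < k) : red (y i) ∈ Sp y k :=
  Submodule.subset_span ⟨⟨i, h⟩, rfl⟩

lemma exists_notMem_Sp (y : ℕ → Fin n → ℤ) {k : ℕ} (h : k < n) :
    ∃ x : Fin n → ℤ, red x ∉ Sp y k := by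
  by_contra hc
  push Not at hc
  have htop : Sp y k = ⊤ := by
    rw [eq_top_iff]
    intro c _
    obtain ⟨x, rfl⟩ := red_surj c
    exact hc x
  have h1 : Module.finrank (ZMod 2) (Sp y k) ≤ k := by
    exact (finrank_range_le_card (R := ZMod 2) (fun j : Fin k => red (y j))).trans
      (by rw [Fintype.card_fin])
  rw [htop, finrank_top, Module.finrank_fin_fun] at h1
  omega

/-- a greedy system of length `k` -/
structure Greedy (F F' : Form (Fin n → ℤ)) (y z : ℕ → Fin n → ℤ) (k : ℕ) : Prop where
  indep : ∀ i < k, red (y i) ∉ Sp y i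
  red_eq : ∀ i < k, red (y i) = red (z i)
  minL : ∀ i < k, ∀ x, red x ∉ Sp y i → F.nm (y i) ≤ F.nm x
  minR : ∀ i < k, ∀ x, red x ∉ Sp y i → F'.nm (z i) ≤ F'.nm x

lemma exists_greedy (F F' : Form (Fin n → ℤ)) (H : Same F F') :
    ∀ k ≤ n, ∃ y z : ℕ → Fin n → ℤ, Greedy F F' y z k := by
  intro k
  induction k with
  | zero =>
    intro _
    exact ⟨fun _ => 0, fun _ => 0, ⟨by simp, by simp, by simp, by simp⟩⟩
  | succ k ih =>
    intro hk
    obtain ⟨y, z, hg⟩ := ih (by omega)
    obtain ⟨x0, hx0⟩ := exists_notMem_Sp y (show k < n by omega)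
    obtain ⟨yk, hyk, hmin⟩ := F.wf {x | red x ∉ Sp y k} ⟨x0, hx0⟩
    obtain ⟨w, hw⟩ := F'.exists_cmin yk
    have hredw : red yk = red (yk + (w + w)) := (red_eq_iff _ _).mpr ⟨w, rfl⟩
    have hykmin : F.CMin yk := by
      intro w'
      apply hmin
      have : red yk = red (yk + (w' + w')) := (red_eq_iff _ _).mpr ⟨w', rfl⟩
      simp only [Set.mem_ofPred_eq]
      rw [← this]
      exact hyk
    refine ⟨Function.update y k yk, Function.update z k (yk + (w + w)), ?_⟩
    have hSp : ∀ i ≤ k, Sp (Function.update y k yk) i = Sp y i := by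
      intro i hi
      apply Sp_congr
      intro j hj
      rw [Function.update_of_ne (by omega)]
    refine ⟨?_, ?_, ?_, ?_⟩
    · intro i hi
      rw [hSp i (by omega)]
      rcases Nat.lt_succ_iff_lt_or_eq.mp hi with h | h
      · rw [Function.update_of_ne (by omega)]
        exact hg.indep i h
      · subst h
        rw [Function.update_self]
        exact hyk
    · intro i hi
      rcases Nat.lt_succ_iff_lt_or_eq.mp hi with h | h
      · rw [Function.update_of_ne (by omega), Function.update_of_ne (by omega)]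
        exact hg.red_eq i h
      · subst h
        rw [Function.update_self, Function.update_self]
        exact hredw
    · intro i hi x hx
      rw [hSp i (by omega)] at hx
      rcases Nat.lt_succ_iff_lt_or_eq.mp hi with h | h
      · rw [Function.update_of_ne (by omega)]
        exact hg.minL i h x hx
      · subst h
        rw [Function.update_self]
        exact hmin x hx
    · intro i hi x hx
      rw [hSp i (by omega)] at hx
      rcases Nat.lt_succ_iff_lt_or_eq.mp hi with h | h
      · rw [Function.update_of_ne (by omega)]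
        exact hg.minR i h x hx
      · subst h
        rw [Function.update_self]
        -- B[z_k] = A[y_k] ≤ A[class-min of x] = B[class-min of x] ≤ B[x]
        obtain ⟨w1, hw1⟩ := F.exists_cmin x
        obtain ⟨w2, hw2⟩ := F'.exists_cmin x
        have r1 : red x = red (x + (w1 + w1)) := (red_eq_iff _ _).mpr ⟨w1, rfl⟩
        have r2 : red x = red (x + (w2 + w2)) := (red_eq_iff _ _).mpr ⟨w2, rfl⟩
        have e1 := H _ _ hredw hykmin hw
        have e2 := H _ _ (r1.symm.trans r2) hw1 hw2
        have e3 : F.nm yk ≤ F.nm (x + (w1 + w1)) := hmin _ (by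
          simp only [Set.mem_ofPred_eq]
          rw [← r1]; exact hx)
        have e4 : F'.nm (x + (w2 + w2)) ≤ F'.nm x := by
          have := hw2 (-w2)
          have h3 : x + (w2 + w2) + (-w2 + -w2) = x := by abel
          rwa [h3] at this
        linarith

namespace Greedy

variable {F F' : Form (Fin n → ℤ)} {y z : ℕ → Fin n → ℤ} {k : ℕ}

lemma cminL (hg : Greedy F F' y z k) {i : ℕ} (hi : i < k) : F.CMin (y i) := by
  intro w
  apply hg.minL i hi
  rw [← (red_eq_iff _ _).mpr ⟨w, rfl⟩]
  exact hg.indep i hi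

lemma cminR (hg : Greedy F F' y z k) {i : ℕ} (hi : i < k) : F'.CMin (z i) := by
  intro w
  apply hg.minR i hi
  rw [← (red_eq_iff _ _).mpr ⟨w, rfl⟩, ← hg.red_eq i hi]
  exact hg.indep i hi

lemma nm_eq (hg : Greedy F F' y z k) (H : Same F F') {i : ℕ} (hi : i < k) :
    F.nm (y i) = F'.nm (z i) :=
  H _ _ (hg.red_eq i hi) (hg.cminL hi) (hg.cminR hi)

lemma linInd (hg : Greedy F F' y z k) :
    LinearIndependent (ZMod 2) (fun i : Fin k => red (y i)) := by
  induction k with
  | zero => exact linearIndependent_empty_type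
  | succ k ih =>
    rw [linearIndependent_finSucc']
    refine ⟨?_, ?_⟩
    · exact ih ⟨fun i hi => hg.indep i (by omega), fun i hi => hg.red_eq i (by omega),
        fun i hi => hg.minL i (by omega), fun i hi => hg.minR i (by omega)⟩
    · exact hg.indep k (by omega)

/-- the key consequence: absolute values of scalar products agree. -/
lemma abs_eq (hg : Greedy F F' y z k) (H : Same F F') {i j : ℕ} (hij : i < j) (hj : j < k) :
    |F.b (y i) (y j)| = |F'.b (z i) (z j)| := by
  have hi : i < k := hij.trans hj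
  have main : ∀ (E : Form (Fin n → ℤ)) (u v : Fin n → ℤ), red u = red (y i) → red v = red (y j) →
      (∀ x, red x ∉ Sp y i → E.nm u ≤ E.nm x) → (∀ x, red x ∉ Sp y j → E.nm v ≤ E.nm x) →
      ∃ t, red t = red (y i) + red (y j) ∧ E.CMin t ∧
        E.nm t = E.nm u + E.nm v - 2 * |E.b u v| := by
    intro E u v hu hv humin hvmin
    obtain ⟨w, hw⟩ := E.exists_cmin (u + v)
    have hred : red (u + v + (w + w)) = red (y i) + red (y j) := by
      rw [← (red_eq_iff _ _).mpr ⟨w, rfl⟩, map_add, hu, hv]
    refine ⟨u + v + (w + w), hred, hw, ?_⟩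
    have hk := E.key (V := (Sp y i).toAddSubgroup.comap (red (n := n)))
      (W := (Sp y j).toAddSubgroup.comap (red (n := n))) (u := u) (v := v) (w := w)
      (t := u + v + (w + w))
      (by
        change red u ∈ Sp y j
        rw [hu]; exact mem_Sp y hij)
      (by
        change ¬ (red u ∈ Sp y i)
        rw [hu]; exact hg.indep i hi)
      (by
        change ¬ (red v ∈ Sp y j)
        rw [hv]; exact hg.indep j hj)
      (fun x hx => humin x hx) (fun x hx => hvmin x hx) rfl hw
    have e1 : E.nm (u + v + (w + w)) ≤ E.nm (u + v) := by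
      have := hw (-w)
      have h3 : u + v + (w + w) + (-w + -w) = u + v := by abel
      rwa [h3] at this
    have e2 : E.nm (u + v + (w + w)) ≤ E.nm (u - v) := by
      have := hw (-w - v)
      have h3 : u + v + (w + w) + ((-w - v) + (-w - v)) = u - v := by abel
      rwa [h3] at this
    have a1 := E.nm_add u v
    have a2 := E.nm_sub u v
    rcases abs_cases (E.b u v) with ⟨h, h'⟩ | ⟨h, h'⟩ <;> rcases hk with hk | hk <;>
      rw [h] <;> linarith
  obtain ⟨t, ht1, ht2, ht3⟩ := main F (y i) (y j) rfl rfl (hg.minL i hi) (hg.minL j hj)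
  obtain ⟨t', ht1', ht2', ht3'⟩ := main F' (z i) (z j) (hg.red_eq i hi).symm (hg.red_eq j hj).symm
    (hg.minR i hi) (hg.minR j hj)
  have e := H t t' (ht1.trans ht1'.symm) ht2 ht2'
  have e1 := hg.nm_eq H hi
  have e2 := hg.nm_eq H hj
  linarith

end Greedy

end Pool.H48.Vonorm
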