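import Mathlib
import Pool.Agent.H48.Vonorm.Form

/-!
# The form on `ℤⁿ` of a positive definite real matrix, and vonorms
-/

set_option autoImplicit false

open Matrix

namespace Pool.H48.Vonorm

variable {n : ℕ}

/-- real vector of an integer vector -/
def rv (x : Fin n → ℤ) : Fin n → ℝ := fun i => (x i : ℝ)

/-- `A(x,y)` for integer vectors. -/
def bl (A : Matrix (Fin n) (Fin n) ℝ) (x y : Fin n → ℤ) : ℝ :=
  rv x ⬝ᵥ (A *ᵥ rv y)

lemma rv_add (x y : Fin n → ℤ) : rv (x + y) = rv x + rv y := by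
  ext i; simp [rv]

lemma exists_lower (A : Matrix (Fin n) (Fin n) ℝ) (hA : A.PosDef) :
    ∃ c : ℝ, 0 < c ∧ ∀ x : Fin n → ℝ, c * ‖x‖ ^ 2 ≤ x ⬝ᵥ (A *ᵥ x) := by
  have hpos : ∀ x : Fin n → ℝ, x ≠ 0 → 0 < x ⬝ᵥ (A *ᵥ x) := by
    intro x hx
    have := hA.dotProduct_mulVec_pos hx
    simpa using this
  have hcont : Continuous fun x : Fin n → ℝ => x ⬝ᵥ (A *ᵥ x) := by
    unfold dotProduct mulVec dotProduct
    fun_prop
  have hcomp : IsCompact (Metric.sphere (0 : Fin n → ℝ) 1) := isCompact_sphere 0 1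
  by_cases hne : (Metric.sphere (0 : Fin n → ℝ) 1).Nonempty
  · obtain ⟨z, hz, hmin⟩ := hcomp.exists_isMinOn hne hcont.continuousOn
    have hz0 : z ≠ 0 := by
      intro h
      simp [h] at hz
    refine ⟨_, hpos z hz0, fun x => ?_⟩
    by_cases hx : x = 0
    · simp [hx]
    · have hxn : 0 < ‖x‖ := norm_pos_iff.mpr hx
      have hmem : (‖x‖⁻¹ • x) ∈ Metric.sphere (0 : Fin n → ℝ) 1 := by
        simp [norm_smul, hxn.ne']
      have h1 := hmin hmem
      simp only [Set.mem_ofPred_eq] at h1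
      rw [mulVec_smul, dotProduct_smul, smul_dotProduct, smul_eq_mul, smul_eq_mul] at h1
      have h2 := mul_le_mul_of_nonneg_right h1 (sq_nonneg ‖x‖)
      refine h2.trans (le_of_eq ?_)
      field_simp
  · refine ⟨1, one_pos, fun x => ?_⟩
    by_cases hx : x = 0
    · simp [hx]
    · exfalso
      apply hne
      have hxn : 0 < ‖x‖ := norm_pos_iff.mpr hx
      exact ⟨‖x‖⁻¹ • x, by simp [norm_smul, hxn.ne']⟩

lemma bl_finite (A : Matrix (Fin n) (Fin n) ℝ) (hA : A.PosDef) (R : ℝ) :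
    {x : Fin n → ℤ | bl A x x ≤ R}.Finite := by
  obtain ⟨c, hc, h⟩ := exists_lower A hA
  obtain ⟨K, hK⟩ := exists_nat_ge (R / c + 1)
  refine (Set.finite_Icc (fun _ => -(K : ℤ)) (fun _ : Fin n => (K : ℤ))).subset ?_
  intro x hx
  simp only [Set.mem_ofPred_eq] at hx
  have h1 := (h (rv x)).trans hx
  have h2 : ‖rv x‖ ^ 2 ≤ R / c := by
    rw [le_div_iff₀ hc]; linarith
  have hKpos : (0:ℝ) ≤ K := Nat.cast_nonneg K
  have hn0 : 0 ≤ ‖rv x‖ := norm_nonneg _
  have h3 : ‖rv x‖ ≤ K := by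
    nlinarith [sq_nonneg (‖rv x‖ - 1)]
  have h4 : ∀ i, |x i| ≤ (K : ℤ) := by
    intro i
    have := (norm_le_pi_norm (rv x) i).trans h3
    have h5 : (|(x i : ℝ)|) ≤ K := by simpa [rv, Real.norm_eq_abs] using this
    exact_mod_cast h5
  constructor
  · intro i
    exact (abs_le.mp (h4 i)).1
  · intro i
    exact (abs_le.mp (h4 i)).2

lemma transpose_of_posDef {A : Matrix (Fin n) (Fin n) ℝ} (hA : A.PosDef) : Aᵀ = A := by
  have := hA.1
  rw [IsHermitian, conjTranspose_eq_transpose_of_trivial] at this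
  exact this

/-- The `Form` on `ℤⁿ` of a positive definite real matrix. -/
def toForm (A : Matrix (Fin n) (Fin n) ℝ) (hA : A.PosDef) : Form (Fin n → ℤ) where
  b := bl A
  add_left x y z := by
    simp only [bl, rv_add, add_dotProduct]
  comm x y := by
    have hT : Aᵀ = A := transpose_of_posDef hA
    unfold bl
    rw [dotProduct_mulVec, ← mulVec_transpose, hT, dotProduct_comm]
  pos x hx := by
    have hx' : rv x ≠ 0 := by
      intro h
      apply hx
      ext i
      have := congrFun h i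
      simpa [rv] using this
    have := hA.dotProduct_mulVec_pos hx'
    simpa [bl] using this
  wf T hT := by
    obtain ⟨x0, hx0⟩ := hT
    have hfin : (T ∩ {x | bl A x x ≤ bl A x0 x0}).Finite :=
      (bl_finite A hA _).subset Set.inter_subset_right
    have hx0' : x0 ∈ {x | bl A x x ≤ bl A x0 x0} := le_refl (bl A x0 x0)
    obtain ⟨x, hx, hmin⟩ := Set.exists_min_image _ (fun x => bl A x x) hfin ⟨x0, hx0, hx0'⟩
    refine ⟨x, hx.1, fun y hy => ?_⟩
    by_cases h : bl A y y ≤ bl A x0 x0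
    · exact hmin y ⟨hy, h⟩
    · exact (hmin x0 ⟨hx0, hx0'⟩).trans (not_le.mp h).le

@[simp] lemma toForm_b (A : Matrix (Fin n) (Fin n) ℝ) (hA : A.PosDef) (x y : Fin n → ℤ) :
    (toForm A hA).b x y = bl A x y := rfl

@[simp] lemma toForm_nm (A : Matrix (Fin n) (Fin n) ℝ) (hA : A.PosDef) (x : Fin n → ℤ) :
    (toForm A hA).nm x = bl A x x := rfl

/-- The quantity `A[x - 1_S/2]` of the problem. -/
noncomputable def half (A : Matrix (Fin n) (Fin n) ℝ) (S : Finset (Fin n)) (x : Fin n → ℤ) : ℝ :=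
  dotProduct (fun i => (x i : ℝ) - (if i ∈ S then (1/2 : ℝ) else 0))
    (A.mulVec (fun i => (x i : ℝ) - (if i ∈ S then (1/2 : ℝ) else 0)))

/-- indicator vector -/
def ind (S : Finset (Fin n)) : Fin n → ℤ := fun i => if i ∈ S then 1 else 0

lemma four_half (A : Matrix (Fin n) (Fin n) ℝ) (S : Finset (Fin n)) (x : Fin n → ℤ) :
    4 * half A S x = bl A ((x + x) - ind S) ((x + x) - ind S) := by
  have h : rv ((x + x) - ind S) =
      (2 : ℝ) • (fun i => (x i : ℝ) - (if i ∈ S then (1/2 : ℝ) else 0)) := by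
    ext i
    by_cases hi : i ∈ S
    · simp [rv, ind, hi]; ring
    · simp [rv, ind, hi]; ring
  unfold bl half
  rw [h, mulVec_smul, dotProduct_smul, smul_dotProduct, smul_eq_mul, smul_eq_mul]
  ring

/-- If `y` is a shortest vector of its class and `y = 2x - 1_S`, the infimum is `A[y]/4`. -/
lemma iInf_half (A : Matrix (Fin n) (Fin n) ℝ) (hA : A.PosDef) (S : Finset (Fin n))
    (x : Fin n → ℤ) (hx : (toForm A hA).CMin ((x + x) - ind S)) :
    4 * (⨅ x : Fin n → ℤ, half A S x) = bl A ((x + x) - ind S) ((x + x) - ind S) := by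
  have hle : ∀ x' : Fin n → ℤ, half A S x ≤ half A S x' := by
    intro x'
    have h1 := four_half A S x
    have h2 := four_half A S x'
    have h3 := hx (x' - x)
    have h4 : (x + x) - ind S + ((x' - x) + (x' - x)) = (x' + x') - ind S := by abel
    rw [h4] at h3
    simp only [toForm_nm] at h3
    linarith
  have h5 : (⨅ x : Fin n → ℤ, half A S x) = half A S x := by
    apply le_antisymm
    · exact ciInf_le ⟨half A S x, by rintro _ ⟨x', rfl⟩; exact hle x'⟩ x
    · exact le_ciInf hle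
  rw [h5, four_half]

/-- Equality of vonorms, in terms of class-minimal vectors. -/
lemma vonorm_eq (A B : Matrix (Fin n) (Fin n) ℝ) (hA : A.PosDef) (hB : B.PosDef)
    (h : ∀ S : Finset (Fin n), (⨅ x : Fin n → ℤ, half A S x) = (⨅ x : Fin n → ℤ, half B S x))
    (y z w : Fin n → ℤ) (hyz : z = y + (w + w))
    (hy : (toForm A hA).CMin y) (hz : (toForm B hB).CMin z) :
    bl A y y = bl B z z := by
  classical
  set S : Finset (Fin n) := Finset.univ.filter fun i => y i % 2 = 1 with hS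
  have key : ∀ y' : Fin n → ℤ, (∀ i, y' i % 2 = y i % 2) →
      ∃ x : Fin n → ℤ, y' = (x + x) - ind S := by
    intro y' hy'
    refine ⟨fun i => (y' i + ind S i) / 2, ?_⟩
    ext i
    simp only [Pi.sub_apply, Pi.add_apply]
    have h1 := hy' i
    have h2 : ind S i = y i % 2 := by
      unfold ind
      rcases Int.emod_two_eq_zero_or_one (y i) with h | h
      · simp [hS, h]
      · simp [hS, h]
    omega
  obtain ⟨x, hx⟩ := key y (fun _ => rfl)
  obtain ⟨x', hx'⟩ := key z (fun i => by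
    rw [hyz]; simp only [Pi.add_apply]; omega)
  have e1 := iInf_half A hA S x (hx ▸ hy)
  have e2 := iInf_half B hB S x' (hx' ▸ hz)
  rw [h S] at e1
  rw [e1] at e2
  rw [hx, e2, hx']

end Pool.H48.Vonorm
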