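import Mathlib
import Pool.Agent.H48.Vonorm.Mat
import Pool.Agent.H48.Vonorm.Greedy

/-!
# From greedy systems to integral equivalence
-/

set_option autoImplicit false

open Matrix

namespace Pool.H48.Vonorm

variable {n : ℕ}

/-- integer matrix as a real matrix -/
abbrev rm (Y : Matrix (Fin n) (Fin n) ℤ) : Matrix (Fin n) (Fin n) ℝ :=
  Y.map (Int.cast : ℤ → ℝ)

lemma rv_mulVec (Y : Matrix (Fin n) (Fin n) ℤ) (p : Fin n → ℤ) :
    rv (Y *ᵥ p) = rm Y *ᵥ rv p := by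
  ext i
  simp [rv, mulVec, dotProduct]

lemma bl_mulVec (A : Matrix (Fin n) (Fin n) ℝ) (Y : Matrix (Fin n) (Fin n) ℤ)
    (p q : Fin n → ℤ) : bl A (Y *ᵥ p) (Y *ᵥ q) = bl ((rm Y)ᵀ * A * rm Y) p q := by
  unfold bl
  rw [rv_mulVec, rv_mulVec, ← mulVec_mulVec, ← mulVec_mulVec, dotProduct_mulVec (rv p),
    vecMul_transpose]

lemma rv_smul (e : ℤ) (x : Fin n → ℤ) : rv (e • x) = (e : ℝ) • rv x := by
  ext i; simp [rv]

lemma bl_smul_smul (A : Matrix (Fin n) (Fin n) ℝ) (e : ℤ) (x y : Fin n → ℤ) :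
    bl A (e • x) (e • y) = (e : ℝ) ^ 2 * bl A x y := by
  unfold bl
  rw [rv_smul, rv_smul, mulVec_smul, dotProduct_smul, smul_dotProduct, smul_eq_mul, smul_eq_mul]
  ring

lemma bl_single (A : Matrix (Fin n) (Fin n) ℝ) (k l : Fin n) :
    bl A (Pi.single k 1) (Pi.single l 1) = A k l := by
  have h : ∀ k : Fin n, rv (Pi.single k 1 : Fin n → ℤ) = Pi.single k 1 := by
    intro k
    ext i
    by_cases hi : i = k
    · subst hi; simp [rv]
    · simp [rv, hi]
  unfold bl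
  rw [h, h]
  simp

/-- If the partial isometry `Y p ↦ Z p` sends all class-minimal vectors of `A` to integer vectors,
then `A` is represented by `B`. -/
lemma rep_of_common (A B : Matrix (Fin n) (Fin n) ℝ) (hA : A.PosDef) (e : ℤ) (he : e ≠ 0)
    (Y Z : Matrix (Fin n) (Fin n) ℤ)
    (hG : (rm Y)ᵀ * A * rm Y = (rm Z)ᵀ * B * rm Z)
    (hc : ∀ x, (toForm A hA).CMin x → ∃ p x', e • x = Y *ᵥ p ∧ e • x' = Z *ᵥ p) :
    ∃ U : Matrix (Fin n) (Fin n) ℤ, A = (rm U)ᵀ * B * rm U := by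
  let M : AddSubgroup (Fin n → ℤ) :=
    { carrier := {x | ∃ p x', e • x = Y *ᵥ p ∧ e • x' = Z *ᵥ p}
      zero_mem' := ⟨0, 0, by simp, by simp⟩
      add_mem' := by
        rintro a b ⟨p, a', h1, h2⟩ ⟨q, b', h3, h4⟩
        exact ⟨p + q, a' + b', by rw [smul_add, h1, h3, mulVec_add],
          by rw [smul_add, h2, h4, mulVec_add]⟩
      neg_mem' := by
        rintro a ⟨p, a', h1, h2⟩
        exact ⟨-p, -a', by rw [smul_neg, h1, mulVec_neg], by rw [smul_neg, h2, mulVec_neg]⟩ }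
  have hall : ∀ x, x ∈ M := (toForm A hA).descent M hc
  choose p u h1 h2 using fun k : Fin n => hall (Pi.single k 1)
  refine ⟨(Matrix.of u)ᵀ, ?_⟩
  have hU : ∀ k, (Matrix.of u)ᵀ *ᵥ (Pi.single k 1) = u k := by
    intro k
    rw [mulVec_single_one]
    rfl
  ext k l
  have e1 : bl A (Pi.single k 1) (Pi.single l 1) = bl B (u k) (u l) := by
    have h3 : (e : ℝ) ^ 2 * bl A (Pi.single k 1) (Pi.single l 1)
        = (e : ℝ) ^ 2 * bl B (u k) (u l) := by
      rw [← bl_smul_smul, ← bl_smul_smul, h1, h1, h2, h2, bl_mulVec, bl_mulVec, hG]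
    have h4 : (e : ℝ) ^ 2 ≠ 0 := by positivity
    exact mul_left_cancel₀ h4 h3
  rw [bl_single] at e1
  rw [e1]
  conv_lhs => rw [← hU k, ← hU l]
  rw [bl_mulVec, bl_single]

/-- Mutually represented positive definite forms are equivalent. -/
lemma equiv_of_reps (A B : Matrix (Fin n) (Fin n) ℝ) (hA : A.PosDef)
    (h1 : ∃ U : Matrix (Fin n) (Fin n) ℤ, A = (rm U)ᵀ * B * rm U)
    (h2 : ∃ U : Matrix (Fin n) (Fin n) ℤ, B = (rm U)ᵀ * A * rm U) :
    ∃ U : Matrix (Fin n) (Fin n) ℤ, IsUnit U.det ∧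
      B = (U.map (Int.cast : ℤ → ℝ))ᵀ * A * U.map (Int.cast : ℤ → ℝ) := by
  obtain ⟨U, hU⟩ := h1
  obtain ⟨W, hW⟩ := h2
  refine ⟨W, ?_, hW⟩
  have hdet : 0 < A.det := hA.det_pos
  have c : ∀ X : Matrix (Fin n) (Fin n) ℤ, (rm X).det = (X.det : ℝ) := by
    intro X
    have := (Int.castRingHom ℝ).map_det X
    simpa [rm, RingHom.mapMatrix_apply] using this.symm
  have d1 : A.det = (U.det : ℝ) * B.det * (U.det : ℝ) := by
    conv_lhs => rw [hU]
    rw [det_mul, det_mul, det_transpose, c]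
  have d2 : B.det = (W.det : ℝ) * A.det * (W.det : ℝ) := by
    conv_lhs => rw [hW]
    rw [det_mul, det_mul, det_transpose, c]
  rw [d2] at d1
  have d3 : ((U.det : ℝ) * (W.det : ℝ)) ^ 2 = 1 := by
    have : (((U.det : ℝ) * (W.det : ℝ)) ^ 2 - 1) * A.det = 0 := by
      linear_combination -d1
    rcases mul_eq_zero.mp this with h | h
    · linarith
    · exact absurd h hdet.ne'
  have d4 : (U.det * W.det) ^ 2 = 1 := by exact_mod_cast d3
  have d5 : IsUnit (U.det * W.det) := by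
    rw [sq] at d4
    exact IsUnit.of_mul_eq_one _ d4
  exact isUnit_of_mul_isUnit_right d5

end Pool.H48.Vonorm
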