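import Mathlib
import Pool.Agent.H48.Vonorm.Iso

/-!
# Coordinates with respect to a system that is independent modulo two
-/

set_option autoImplicit false

open Matrix

namespace Pool.H48.Vonorm

variable {n : ℕ}

/-- matrix with columns `y 0, …, y (n-1)` -/
def cols (y : ℕ → Fin n → ℤ) : Matrix (Fin n) (Fin n) ℤ :=
  (Matrix.of fun i : Fin n => y i)ᵀ

lemma cols_mulVec (y : ℕ → Fin n → ℤ) (p : Fin n → ℤ) :
    cols y *ᵥ p = ∑ i : Fin n, p i • y i := by
  ext k
  simp [cols, mulVec, dotProduct, Finset.sum_apply, mul_comm]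

lemma cols_single (y : ℕ → Fin n → ℤ) (i : Fin n) : cols y *ᵥ Pi.single i 1 = y i := by
  rw [mulVec_single_one]
  rfl

lemma gram_cols (A : Matrix (Fin n) (Fin n) ℝ) (y : ℕ → Fin n → ℤ) (i j : Fin n) :
    ((rm (cols y))ᵀ * A * rm (cols y)) i j = bl A (y i) (y j) := by
  have := bl_single ((rm (cols y))ᵀ * A * rm (cols y)) i j
  rw [← this, ← bl_mulVec, cols_single, cols_single]

lemma det_cols_odd (y : ℕ → Fin n → ℤ)
    (h : LinearIndependent (ZMod 2) (fun i : Fin n => red (y i))) : Odd (cols y).det := by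
  have h1 : IsUnit (Matrix.of fun i : Fin n => red (y i)) := by
    rw [← Matrix.linearIndependent_rows_iff_isUnit]
    exact h
  rw [Matrix.isUnit_iff_isUnit_det] at h1
  have h2 : ((cols y).det : ZMod 2) = (Matrix.of fun i : Fin n => red (y i)).det := by
    rw [cols, det_transpose]
    have := (Int.castRingHom (ZMod 2)).map_det (Matrix.of fun i : Fin n => y i)
    rw [eq_intCast] at this
    rw [this]
    rfl
  rw [← h2] at h1
  rw [← Int.not_even_iff_odd]
  intro he
  have : ((cols y).det : ZMod 2) = 0 := by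
    rw [ZMod.intCast_zmod_eq_zero_iff_dvd]
    exact he.two_dvd
  rw [this] at h1
  exact not_isUnit_zero h1

lemma exists_coord (Y : Matrix (Fin n) (Fin n) ℤ) (d : ℤ) (x : Fin n → ℤ) :
    ∃ p, (Y.det * d) • x = Y *ᵥ p := by
  refine ⟨d • (Y.adjugate *ᵥ x), ?_⟩
  rw [mulVec_smul, mulVec_mulVec, mul_adjugate, smul_mulVec, one_mulVec, smul_smul, mul_comm]

lemma red_smul (e : ℤ) (x : Fin n → ℤ) : red (e • x) = (e : ZMod 2) • red x := by
  ext i; simp [red_apply]

lemma odd_coord (y : ℕ → Fin n → ℤ)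
    (h : LinearIndependent (ZMod 2) (fun i : Fin n => red (y i)))
    (e : ℤ) (he : Odd e) (x p : Fin n → ℤ) (hx : red x = ∑ i : Fin n, red (y i))
    (hp : e • x = cols y *ᵥ p) (i : Fin n) : Odd (p i) := by
  have h1 : (e : ZMod 2) = 1 := by
    obtain ⟨k, rfl⟩ := he
    push_cast
    have : (2 : ZMod 2) = 0 := rfl
    rw [this]; ring
  have h2 : ∑ i : Fin n, ((p i : ZMod 2) - 1) • red (y i) = 0 := by
    have h3 : red (e • x) = red (∑ i : Fin n, p i • y i) := by rw [hp, cols_mulVec]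
    rw [red_smul, h1, one_smul, hx, map_sum] at h3
    simp only [sub_smul, one_smul, Finset.sum_sub_distrib]
    rw [h3]
    simp only [red_smul]
    exact sub_self _
  have h4 := (Fintype.linearIndependent_iff.mp h) _ h2 i
  have h5 : ((p i - 1 : ℤ) : ZMod 2) = 0 := by push_cast; exact h4
  rw [ZMod.intCast_zmod_eq_zero_iff_dvd] at h5
  obtain ⟨k, hk⟩ := h5
  exact ⟨k, by push_cast at hk; linarith⟩

/-- no nontrivial integral linear relation between the entries of `A` -/
def Gen (A : Matrix (Fin n) (Fin n) ℝ) : Prop :=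
  ∀ C : Matrix (Fin n) (Fin n) ℤ, Cᵀ = C → (∑ i, ∑ j, (C i j : ℝ) * A i j) = 0 → C = 0

lemma sum_mul_eq_trace (C : Matrix (Fin n) (Fin n) ℤ) (A : Matrix (Fin n) (Fin n) ℝ) :
    (∑ i, ∑ j, (C i j : ℝ) * A i j) = ((rm C)ᵀ * A).trace := by
  simp only [trace, diag, mul_apply, transpose_apply, map_apply]
  rw [Finset.sum_comm]

lemma Gen.gram {A : Matrix (Fin n) (Fin n) ℝ} (hA : Gen A) (Y : Matrix (Fin n) (Fin n) ℤ)
    (hY : Y.det ≠ 0) : Gen ((rm Y)ᵀ * A * rm Y) := by
  intro C hC h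
  rw [sum_mul_eq_trace] at h
  have h1 : (Y * C * Yᵀ) = 0 := by
    apply hA
    · rw [transpose_mul, transpose_mul, transpose_transpose, hC, Matrix.mul_assoc]
    · rw [sum_mul_eq_trace, ← h]
      have h2 : rm (Y * C * Yᵀ) = rm Y * rm C * (rm Y)ᵀ := by
        ext i j
        simp [mul_apply]
      rw [h2, transpose_mul, transpose_mul, transpose_transpose, trace_mul_comm]
      rw [show A * (rm Y * ((rm C)ᵀ * (rm Y)ᵀ)) = (A * rm Y) * ((rm C)ᵀ * (rm Y)ᵀ) by
        simp only [Matrix.mul_assoc]]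
      rw [trace_mul_comm]
      simp only [Matrix.mul_assoc]
  have h3 : (Y.det * Y.det) • C = 0 := by
    have h4 : Y.adjugate * (Y * C * Yᵀ) * (Yᵀ).adjugate = (Y.det * Y.det) • C := by
      calc Y.adjugate * (Y * C * Yᵀ) * (Yᵀ).adjugate
          = (Y.adjugate * Y) * C * (Yᵀ * (Yᵀ).adjugate) := by simp only [Matrix.mul_assoc]
        _ = (Y.det * Y.det) • C := by
          rw [adjugate_mul, mul_adjugate, det_transpose, Matrix.smul_mul, Matrix.one_mul,
            Matrix.mul_smul, Matrix.mul_one, smul_smul]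
    rw [← h4, h1, Matrix.mul_zero, Matrix.zero_mul]
  rcases smul_eq_zero.mp h3 with h4 | h4
  · exact absurd (mul_self_eq_zero.mp h4) hY
  · exact h4

end Pool.H48.Vonorm
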