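import Mathlib
import Pool.Agent.H48.Vonorm.Coord

/-!
# Forms with rationally independent entries are determined by their vonorms
-/

set_option autoImplicit false

open Matrix

namespace Pool.H48.Vonorm

variable {n : ℕ}

lemma same_of_vonorm (A B : Matrix (Fin n) (Fin n) ℝ) (hA : A.PosDef) (hB : B.PosDef)
    (h : ∀ S : Finset (Fin n), (⨅ x : Fin n → ℤ, half A S x) = (⨅ x : Fin n → ℤ, half B S x)) :
    Same (toForm A hA) (toForm B hB) := by
  intro y z hyz hy hz
  obtain ⟨w, hw⟩ := (red_eq_iff y z).mp hyz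
  exact vonorm_eq A B hA hB h y z w hw hy hz

lemma bl_comm {A : Matrix (Fin n) (Fin n) ℝ} (hA : A.PosDef) (x y : Fin n → ℤ) :
    bl A x y = bl A y x := (toForm A hA).comm x y

/-- A simultaneous greedy system for two forms with equal vonorms. -/
lemma exists_system (A B : Matrix (Fin n) (Fin n) ℝ) (hA : A.PosDef) (hB : B.PosDef)
    (H : Same (toForm A hA) (toForm B hB)) :
    ∃ y z : ℕ → Fin n → ℤ, LinearIndependent (ZMod 2) (fun i : Fin n => red (y i)) ∧
      (∀ i : Fin n, red (y i) = red (z i)) ∧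
      (∀ i : Fin n, bl A (y i) (y i) = bl B (z i) (z i)) ∧
      ∀ i j : Fin n, |bl A (y i) (y j)| = |bl B (z i) (z j)| := by
  obtain ⟨y, z, hg⟩ := exists_greedy _ _ H n le_rfl
  have hnm : ∀ i : Fin n, bl A (y i) (y i) = bl B (z i) (z i) := fun i => hg.nm_eq H i.2
  refine ⟨y, z, hg.linInd, fun i => hg.red_eq i i.2, hnm, fun i j => ?_⟩
  rcases lt_trichotomy i j with h | h | h
  · exact hg.abs_eq H h j.2
  · subst h
    rw [hnm i]
  · have := hg.abs_eq H h i.2
    simp only [toForm_b] at this
    rw [bl_comm hA, this, bl_comm hB]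

lemma bl_eq_sum (A : Matrix (Fin n) (Fin n) ℝ) (p q : Fin n → ℤ) :
    bl A p q = ∑ i, ∑ j, ((p i : ℝ) * (q j : ℝ)) * A i j := by
  unfold bl rv dotProduct mulVec dotProduct
  refine Finset.sum_congr rfl fun i _ => ?_
  rw [Finset.mul_sum]
  refine Finset.sum_congr rfl fun j _ => ?_
  ring

/-- the generic case -/
theorem generic_equiv (A B : Matrix (Fin n) (Fin n) ℝ) (hA : A.PosDef) (hB : B.PosDef)
    (H : Same (toForm A hA) (toForm B hB)) (hgen : Gen A) :
    ∃ U : Matrix (Fin n) (Fin n) ℤ, IsUnit U.det ∧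
      B = (U.map (Int.cast : ℤ → ℝ))ᵀ * A * U.map (Int.cast : ℤ → ℝ) := by
  classical
  obtain ⟨y, z, hli, hred, hnm, habs⟩ := exists_system A B hA hB H
  have hliz : LinearIndependent (ZMod 2) (fun i : Fin n => red (z i)) := by
    have : (fun i : Fin n => red (z i)) = (fun i : Fin n => red (y i)) := by
      funext i; rw [hred i]
    rw [this]; exact hli
  have hYodd := det_cols_odd y hli
  have hZodd := det_cols_odd z hliz
  set e : ℤ := (cols y).det * (cols z).det with he
  have heodd : Odd e := hYodd.mul hZodd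
  have he0 : e ≠ 0 := by
    rintro h
    rw [h] at heodd
    exact absurd heodd (by decide)
  have hY0 : (cols y).det ≠ 0 := by
    intro h; rw [h] at hYodd; exact absurd hYodd (by decide)
  -- signs
  let τ : Fin n → Fin n → ℤ := fun i j => if bl B (z i) (z j) = bl A (y i) (y j) then 1 else -1
  have hτ : ∀ i j : Fin n, bl B (z i) (z j) = (τ i j : ℝ) * bl A (y i) (y j) := by
    intro i j
    by_cases h : bl B (z i) (z j) = bl A (y i) (y j)
    · simp [τ, h]
    · have h1 := habs i j
      rcases abs_eq_abs.mp h1 with h2 | h2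
      · exact absurd h2.symm h
      · simp only [τ, h, if_false]
        push_cast
        linarith
  have hτs : ∀ i j, τ i j = τ j i := by
    intro i j
    simp only [τ]
    rw [bl_comm hB (z i) (z j), bl_comm hA (y i) (y j)]
  have hτ1 : ∀ i, τ i i = 1 := by
    intro i
    simp only [τ]
    rw [if_pos (hnm i).symm]
  have hgram := hgen.gram (cols y) hY0
  -- the key relation
  have key : ∀ x x' p p', (toForm A hA).CMin x → (toForm B hB).CMin x' → red x = red x' →
      e • x = cols y *ᵥ p → e • x' = cols z *ᵥ p' →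
      ∀ i j, p i * p j = τ i j * (p' i * p' j) := by
    intro x x' p p' hx hx' hxx' hp hp' i j
    have h1 : bl A x x = bl B x' x' := H x x' hxx' hx hx'
    have h2 : bl A (e • x) (e • x) = bl B (e • x') (e • x') := by
      rw [bl_smul_smul, bl_smul_smul, h1]
    rw [hp, hp', bl_mulVec, bl_mulVec, bl_eq_sum, bl_eq_sum] at h2
    have h3 := hgram (Matrix.of fun i j => p i * p j - τ i j * (p' i * p' j)) (by
      ext i j
      simp only [transpose_apply, of_apply]
      rw [hτs i j]; ring) (by
      have h4 : ∀ i j, (((Matrix.of fun i j => p i * p j - τ i j * (p' i * p' j)) i j : ℤ) : ℝ)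
          * ((rm (cols y))ᵀ * A * rm (cols y)) i j
          = ((p i : ℝ) * (p j : ℝ)) * ((rm (cols y))ᵀ * A * rm (cols y)) i j
            - ((p' i : ℝ) * (p' j : ℝ)) * ((rm (cols z))ᵀ * B * rm (cols z)) i j := by
        intro i j
        rw [gram_cols, gram_cols, hτ i j, of_apply]
        push_cast
        ring
      simp only [h4, Finset.sum_sub_distrib]
      rw [h2]
      exact sub_self _)
    have h5 := congrFun (congrFun h3 i) j
    simp only [of_apply, Matrix.zero_apply] at h5
    linarith
  -- coordinates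
  have cy : ∀ x, ∃ p, e • x = cols y *ᵥ p := fun x => exists_coord (cols y) (cols z).det x
  have cz : ∀ x, ∃ p, e • x = cols z *ᵥ p := fun x => by
    rw [he, mul_comm]
    exact exists_coord (cols z) (cols y).det x
  -- the all-ones class
  obtain ⟨x0, hx0⟩ := red_surj (∑ i : Fin n, red (y i))
  obtain ⟨w1, hw1⟩ := (toForm A hA).exists_cmin x0
  obtain ⟨w2, hw2⟩ := (toForm B hB).exists_cmin x0
  have r1 : red (x0 + (w1 + w1)) = ∑ i : Fin n, red (y i) := by
    rw [← (red_eq_iff _ _).mpr ⟨w1, rfl⟩, hx0]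
  have r2 : red (x0 + (w2 + w2)) = ∑ i : Fin n, red (z i) := by
    rw [← (red_eq_iff _ _).mpr ⟨w2, rfl⟩, hx0]
    exact Finset.sum_congr rfl fun i _ => hred i
  have r3 : red (x0 + (w1 + w1)) = red (x0 + (w2 + w2)) := by
    rw [r1, r2]
    exact Finset.sum_congr rfl fun i _ => hred i
  obtain ⟨p, hp⟩ := cy (x0 + (w1 + w1))
  obtain ⟨p', hp'⟩ := cz (x0 + (w2 + w2))
  have hpodd := odd_coord y hli e heodd _ p r1 hp
  have hpodd' := odd_coord z hliz e heodd _ p' r2 hp'
  have hk0 := key _ _ p p' hw1 hw2 r3 hp hp'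
  have hne : ∀ i, p i ≠ 0 := fun i h => by
    have := hpodd i; rw [h] at this; exact absurd this (by decide)
  have hne' : ∀ i, p' i ≠ 0 := fun i h => by
    have := hpodd' i; rw [h] at this; exact absurd this (by decide)
  let ε : Fin n → ℤ := fun i => if p i = p' i then 1 else -1
  have hε1 : ∀ i, ε i * ε i = 1 := by
    intro i; simp only [ε]; split_ifs <;> norm_num
  have hε : ∀ i, p i = ε i * p' i := by
    intro i
    have h1 := hk0 i i
    rw [hτ1, one_mul] at h1
    simp only [ε]
    split_ifs with h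
    · rw [h, one_mul]
    · rcases mul_self_eq_mul_self_iff.mp h1 with h2 | h2
      · exact absurd h2 h
      · rw [h2]; ring
  have hτε : ∀ i j, τ i j = ε i * ε j := by
    intro i j
    have h1 := hk0 i j
    rw [hε i, hε j] at h1
    have h2 : (ε i * ε j - τ i j) * (p' i * p' j) = 0 := by linear_combination h1
    rcases mul_eq_zero.mp h2 with h3 | h3
    · linarith
    · exact absurd h3 (mul_ne_zero (hne' i) (hne' j))
  -- the corrected system
  let Z' : Matrix (Fin n) (Fin n) ℤ := cols z * Matrix.diagonal ε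
  have hZ' : ∀ q : Fin n → ℤ, cols z *ᵥ q = Z' *ᵥ (fun i => ε i * q i) := by
    intro q
    simp only [Z']
    rw [← mulVec_mulVec]
    congr 1
    ext i
    rw [mulVec_diagonal, ← mul_assoc, hε1, one_mul]
  have hG : (rm (cols y))ᵀ * A * rm (cols y) = (rm Z')ᵀ * B * rm Z' := by
    have h1 : rm Z' = rm (cols z) * Matrix.diagonal (fun i => (ε i : ℝ)) := by
      ext i j
      simp [Z', mul_diagonal]
    ext i j
    rw [h1, transpose_mul, diagonal_transpose]
    have h2 : (Matrix.diagonal (fun i => (ε i : ℝ)) * (rm (cols z))ᵀ * B *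
        (rm (cols z) * Matrix.diagonal (fun i => (ε i : ℝ)))) =
        Matrix.diagonal (fun i => (ε i : ℝ)) * ((rm (cols z))ᵀ * B * rm (cols z)) *
          Matrix.diagonal (fun i => (ε i : ℝ)) := by
      simp only [Matrix.mul_assoc]
    rw [h2, mul_diagonal, diagonal_mul, gram_cols, gram_cols, hτ i j, hτε i j]
    push_cast
    have h3 : (ε i : ℝ) * (ε i : ℝ) = 1 := by exact_mod_cast hε1 i
    have h4 : (ε j : ℝ) * (ε j : ℝ) = 1 := by exact_mod_cast hε1 j
    linear_combination (-(bl A (y i) (y j)) * ((ε j : ℝ) * (ε j : ℝ))) * h3 -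
      (bl A (y i) (y j)) * h4
  -- for every class, coordinates agree up to a global sign
  have hpm : ∀ x x' p p', (toForm A hA).CMin x → (toForm B hB).CMin x' → red x = red x' →
      e • x = cols y *ᵥ p → e • x' = cols z *ᵥ p' →
      (e • x' = Z' *ᵥ p ∨ e • (-x') = Z' *ᵥ p) := by
    intro x x' p p' hx hx' hxx' hp hp'
    have hk := key x x' p p' hx hx' hxx' hp hp'
    set r : Fin n → ℤ := fun i => ε i * p' i with hr
    have hk2 : ∀ i j, p i * p j = r i * r j := by
      intro i j
      rw [hk i j, hτε i j, hr]; ring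
    have hx'r : e • x' = Z' *ᵥ r := by rw [hp', hZ']
    have hrp : r = p ∨ r = -p := by
      by_cases h0 : ∃ i, p i ≠ 0
      · obtain ⟨i, hi⟩ := h0
        rcases mul_self_eq_mul_self_iff.mp (hk2 i i) with h | h
        · left
          ext j
          have := hk2 i j
          rw [← h] at this
          exact (mul_left_cancel₀ hi this).symm
        · right
          ext j
          have h5 := hk2 i j
          have h6 : r i = - p i := by rw [h]; ring
          rw [h6] at h5
          have h7 : p i * p j = p i * (- r j) := by rw [h5]; ring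
          have h8 := mul_left_cancel₀ hi h7
          rw [Pi.neg_apply, h8]; ring
      · push Not at h0
        left
        ext i
        have := hk2 i i
        rw [h0 i, mul_zero] at this
        rw [h0 i]
        exact mul_self_eq_zero.mp this.symm
    rcases hrp with h | h
    · left; rw [hx'r, h]
    · right
      rw [smul_neg, hx'r, h, mulVec_neg, neg_neg]
  apply equiv_of_reps A B hA
  · apply rep_of_common A B hA e he0 (cols y) Z' hG
    intro x hx
    obtain ⟨w, hw⟩ := (toForm B hB).exists_cmin x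
    obtain ⟨p, hp⟩ := cy x
    obtain ⟨p', hp'⟩ := cz (x + (w + w))
    rcases hpm x _ p p' hx hw ((red_eq_iff _ _).mpr ⟨w, rfl⟩) hp hp' with h | h
    · exact ⟨p, _, hp, h⟩
    · exact ⟨p, _, hp, h⟩
  · apply rep_of_common B A hB e he0 Z' (cols y) hG.symm
    intro x' hx'
    obtain ⟨w, hw⟩ := (toForm A hA).exists_cmin x'
    obtain ⟨p, hp⟩ := cy (x' + (w + w))
    obtain ⟨p', hp'⟩ := cz x'
    rcases hpm _ x' p p' hw hx' ((red_eq_iff _ _).mpr ⟨w, rfl⟩).symm hp hp' with h | h
    · exact ⟨p, _, h, hp⟩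
    · refine ⟨-p, -(x' + (w + w)), ?_, ?_⟩
      · rw [mulVec_neg, ← h, smul_neg, neg_neg]
      · rw [mulVec_neg, smul_neg, hp]

/-- Rational independence of the entries on and above the diagonal gives `Gen`. -/
lemma gen_of_linearIndependent (A : Matrix (Fin n) (Fin n) ℝ) (hA : Aᵀ = A)
    (h : LinearIndependent ℚ (fun p : {p : Fin n × Fin n // p.1 ≤ p.2} => A p.1.1 p.1.2)) :
    Gen A := by
  classical
  intro C hC hsum
  have hCs : ∀ i j, C i j = C j i := fun i j => congrFun (congrFun hC j) i
  have hAs : ∀ i j, A i j = A j i := fun i j => congrFun (congrFun hA j) i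
  rw [Fintype.linearIndependent_iff] at h
  have h1 := h (fun p => (if p.1.1 = p.1.2 then (C p.1.1 p.1.2 : ℚ) else 2 * C p.1.1 p.1.2)) (by
    have e1 : ∀ f : Fin n × Fin n → ℝ,
        (∑ p : {p : Fin n × Fin n // p.1 ≤ p.2}, f p.1) =
          ∑ p ∈ Finset.univ.filter (fun p : Fin n × Fin n => p.1 ≤ p.2), f p := by
      intro f
      symm
      apply Finset.sum_subtype
      intro x; simp
    have e2 := e1 (fun p => ((if p.1 = p.2 then (C p.1 p.2 : ℚ) else 2 * C p.1 p.2) : ℚ) • A p.1 p.2)
    rw [e2]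
    have e3 : (∑ i, ∑ j, (C i j : ℝ) * A i j) =
        ∑ p : Fin n × Fin n, (C p.1 p.2 : ℝ) * A p.1 p.2 := by
      rw [Fintype.sum_prod_type]
    rw [e3] at hsum
    -- split pairs
    have e4 : (∑ p : Fin n × Fin n, (C p.1 p.2 : ℝ) * A p.1 p.2) =
        ∑ p ∈ Finset.univ.filter (fun p : Fin n × Fin n => p.1 ≤ p.2),
            (C p.1 p.2 : ℝ) * A p.1 p.2 +
          ∑ p ∈ Finset.univ.filter (fun p : Fin n × Fin n => ¬ p.1 ≤ p.2),
            (C p.1 p.2 : ℝ) * A p.1 p.2 := (Finset.sum_filter_add_sum_filter_not _ _ _).symm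
    have e5 : ∑ p ∈ Finset.univ.filter (fun p : Fin n × Fin n => ¬ p.1 ≤ p.2),
            (C p.1 p.2 : ℝ) * A p.1 p.2 =
        ∑ p ∈ Finset.univ.filter (fun p : Fin n × Fin n => p.1 < p.2),
            (C p.1 p.2 : ℝ) * A p.1 p.2 := by
      refine Finset.sum_bij' (fun p _ => (p.2, p.1)) (fun p _ => (p.2, p.1)) ?_ ?_ ?_ ?_ ?_
      · intro p hp; simpa using hp
      · intro p hp; simpa using hp
      · intro p _; rfl
      · intro p _; rfl
      · intro p _
        change (C p.1 p.2 : ℝ) * A p.1 p.2 = (C p.2 p.1 : ℝ) * A p.2 p.1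
        rw [hCs p.2 p.1, hAs p.2 p.1]
    have e6 : ∑ p ∈ Finset.univ.filter (fun p : Fin n × Fin n => p.1 < p.2),
            (C p.1 p.2 : ℝ) * A p.1 p.2 =
        ∑ p ∈ Finset.univ.filter (fun p : Fin n × Fin n => p.1 ≤ p.2),
            (if p.1 < p.2 then (C p.1 p.2 : ℝ) * A p.1 p.2 else 0) := by
      rw [← Finset.sum_filter, Finset.filter_filter]
      congr 1
      ext p
      simp only [Finset.mem_filter, Finset.mem_univ, true_and]
      constructor
      · intro h; exact ⟨h.le, h⟩
      · intro h; exact h.2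
    rw [e4, e5, e6, ← Finset.sum_add_distrib] at hsum
    rw [← hsum]
    apply Finset.sum_congr rfl
    intro p hp
    simp only [Finset.mem_filter, Finset.mem_univ, true_and] at hp
    by_cases hpe : p.1 = p.2
    · rw [if_pos hpe, if_neg (by rw [hpe]; exact lt_irrefl _), add_zero, Rat.smul_def]
      push_cast
      ring
    · rw [if_neg hpe, if_pos (lt_of_le_of_ne hp hpe), Rat.smul_def]
      push_cast
      ring)
  ext i j
  rw [Matrix.zero_apply]
  have hle : ∀ i j : Fin n, i ≤ j → C i j = 0 := by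
    intro i j hij
    have h2 := h1 ⟨(i, j), hij⟩
    simp only at h2
    split_ifs at h2 with h3
    · exact_mod_cast h2
    · have : (C i j : ℚ) = 0 := by linarith
      exact_mod_cast this
  rcases le_total i j with h2 | h2
  · exact hle i j h2
  · rw [hCs i j]; exact hle j i h2

end Pool.H48.Vonorm
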