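import Mathlib
import Pool.Agent.H48.Vonorm.Form

/-!
# Forms with nonnegative conorms

`Adapted F π Λ` says: `π` is the reduction of `G` modulo `2G` in suitable coordinates, and the
vonorm of the class `v` is the sum of `Λ t` over all `t` with `t ⬝ᵥ v = 1`, where `Λ ≥ 0` and
`Λ` is positive on the coordinate functionals.
-/

set_option autoImplicit false

open Matrix

namespace Pool.H48.Vonorm

variable {G : Type*} [AddCommGroup G] {n : ℕ}

/-- value `1` or `0` of a class of `ZMod 2` -/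
def br (a : ZMod 2) : ℝ := if a = 1 then 1 else 0

lemma br_zero : br 0 = 0 := by simp [br]
lemma br_one : br 1 = 1 := by simp [br]

lemma zmod2_cases (a : ZMod 2) : a = 0 ∨ a = 1 := by
  revert a; decide

/-- vonorm function with conorms `Λ` -/
def fL (Λ : (Fin n → ZMod 2) → ℝ) (v : Fin n → ZMod 2) : ℝ :=
  ∑ t, Λ t * br (t ⬝ᵥ v)

structure Adapted (F : Form G) (π : G →+ (Fin n → ZMod 2)) (Λ : (Fin n → ZMod 2) → ℝ) :
    Prop where
  ker : ∀ x y, π x = π y → ∃ w, y = x + (w + w)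
  surj : Function.Surjective π
  nonneg : ∀ t, 0 ≤ Λ t
  sing : ∀ i, 0 < Λ (Pi.single i 1)
  val : ∀ x, F.CMin x → F.nm x = fL Λ (π x)

/-- `u, v` is a good pair: the functionals in the support of `Λ` that kill `u` and `v` separate
every other class from zero. -/
def Good (Λ : (Fin n → ZMod 2) → ℝ) (u v : Fin n → ZMod 2) : Prop :=
  ∀ w, w ≠ 0 → w ≠ u → w ≠ v → w ≠ u + v →
    ∃ t, 0 < Λ t ∧ t ⬝ᵥ u = 0 ∧ t ⬝ᵥ v = 0 ∧ t ⬝ᵥ w = 1

lemma fL_zero (Λ : (Fin n → ZMod 2) → ℝ) : fL Λ 0 = 0 := by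
  simp [fL, br_zero]

/-- the basic identity: vonorm of a sum -/
lemma fL_add (Λ : (Fin n → ZMod 2) → ℝ) (u v : Fin n → ZMod 2) :
    fL Λ (u + v) = fL Λ u + fL Λ v - 2 * ∑ t, Λ t * (br (t ⬝ᵥ u) * br (t ⬝ᵥ v)) := by
  unfold fL
  rw [Finset.mul_sum, ← Finset.sum_add_distrib, ← Finset.sum_sub_distrib]
  refine Finset.sum_congr rfl fun t _ => ?_
  rw [dotProduct_add]
  rcases zmod2_cases (t ⬝ᵥ u) with h | h <;> rcases zmod2_cases (t ⬝ᵥ v) with h' | h' <;>
    rw [h, h']
  · simp [br_zero]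
  · simp [br_zero, br_one]
  · simp [br_zero, br_one]
  · rw [show (1 : ZMod 2) + 1 = 0 from rfl, br_zero, br_one]; ring

lemma coset_lt {Λ : (Fin n → ZMod 2) → ℝ} (hΛ : ∀ t, 0 ≤ Λ t) {u v : Fin n → ZMod 2}
    (hg : Good Λ u v) {w : Fin n → ZMod 2} (h0 : w ≠ 0) (h1 : w ≠ u) (h2 : w ≠ v)
    (h3 : w ≠ u + v) :
    fL Λ u + fL Λ v + fL Λ (u + v) <
      fL Λ w + fL Λ (w + u) + fL Λ (w + v) + fL Λ (w + u + v) := by
  unfold fL
  simp only [← Finset.sum_add_distrib]
  have hb : ∀ t : Fin n → ZMod 2, Λ t * br (t ⬝ᵥ w) + Λ t * br (t ⬝ᵥ (w + u)) +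
      Λ t * br (t ⬝ᵥ (w + v)) + Λ t * br (t ⬝ᵥ (w + u + v)) =
      Λ t * br (t ⬝ᵥ u) + Λ t * br (t ⬝ᵥ v) + Λ t * br (t ⬝ᵥ (u + v)) +
      Λ t * (if t ⬝ᵥ u = 0 ∧ t ⬝ᵥ v = 0 then 4 * br (t ⬝ᵥ w) else 0) := by
    intro t
    simp only [dotProduct_add]
    rcases zmod2_cases (t ⬝ᵥ u) with h | h <;> rcases zmod2_cases (t ⬝ᵥ v) with h' | h' <;>
      rcases zmod2_cases (t ⬝ᵥ w) with h'' | h'' <;> rw [h, h', h''] <;>
      simp [br_zero, br_one, show (1 : ZMod 2) + 1 = 0 from rfl] <;> ring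
  obtain ⟨t0, ht0, htu, htv, htw⟩ := hg w h0 h1 h2 h3
  apply Finset.sum_lt_sum
  · intro t _
    rw [hb t]
    have : 0 ≤ Λ t * (if t ⬝ᵥ u = 0 ∧ t ⬝ᵥ v = 0 then 4 * br (t ⬝ᵥ w) else 0) := by
      apply mul_nonneg (hΛ t)
      split_ifs
      · unfold br; split_ifs <;> norm_num
      · exact le_rfl
    linarith
  · refine ⟨t0, Finset.mem_univ _, ?_⟩
    rw [hb t0, if_pos ⟨htu, htv⟩, htw, br_one]
    linarith

namespace Adapted

variable {F : Form G} {π : G →+ (Fin n → ZMod 2)} {Λ : (Fin n → ZMod 2) → ℝ}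

lemma pi_two (w : G) : π (w + w) = 0 := by
  rw [map_add]
  ext i
  exact CharTwo.add_self_eq_zero _

lemma le_nm (h : Adapted F π Λ) (x : G) : fL Λ (π x) ≤ F.nm x := by
  obtain ⟨w, hw⟩ := F.exists_cmin x
  have h1 := h.val _ hw
  rw [map_add, pi_two, add_zero] at h1
  have h2 := hw (-w)
  have h3 : x + (w + w) + (-w + -w) = x := by abel
  rw [h3] at h2
  linarith

lemma cmin_iff (h : Adapted F π Λ) (x : G) : F.CMin x ↔ F.nm x = fL Λ (π x) := by
  constructor
  · exact h.val x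
  · intro h1 w
    have := h.le_nm (x + (w + w))
    rw [map_add, pi_two, add_zero] at this
    linarith

lemma eq_zero_of_nm (F : Form G) {x : G} (h : F.nm x ≤ 0) : x = 0 := by
  by_contra hx
  exact absurd (F.pos x hx) (not_lt.mpr h)

/-- additivity for good pairs -/
lemma key2 (h : Adapted F π Λ) {x y : G} (hx : F.CMin x) (hy : F.CMin y)
    (hg : Good Λ (π x) (π y)) :
    F.nm (x + y) = fL Λ (π x + π y) ∨ F.nm (x - y) = fL Λ (π x + π y) := by
  obtain ⟨w, hw⟩ := F.exists_cmin (x + y)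
  have hx' := h.val _ hx
  have hy' := h.val _ hy
  have ht := h.val _ hw
  rw [map_add, pi_two, add_zero, map_add] at ht
  have i1 : F.nm (x + y + w) + F.nm (y + w) + F.nm (x + w) + F.nm w
      = F.nm x + F.nm y + F.nm (x + y + (w + w)) := by
    simp only [Form.nm, F.add_left, F.add_right, F.comm y x, F.comm w x, F.comm w y]; ring
  have l1 := h.le_nm (x + y + w)
  have l2 := h.le_nm (y + w)
  have l3 := h.le_nm (x + w)
  have l4 := h.le_nm w
  rw [map_add, map_add] at l1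
  rw [map_add] at l2 l3
  have dd : ∀ a : Fin n → ZMod 2, a + a = 0 := fun a => by
    ext i; exact CharTwo.add_self_eq_zero _
  by_cases h0 : π w = 0
  · -- w = 0
    rw [h0, add_zero] at l1 l2 l3
    have : F.nm w ≤ 0 := by linarith
    have hw0 := eq_zero_of_nm F this
    left
    rw [hw0, add_zero, add_zero] at ht
    rw [ht]
  by_cases h1 : π w = π x
  · have e1 : π x + π y + π w = π y := by rw [h1, add_right_comm, dd, zero_add]
    rw [e1] at l1
    rw [h1] at l2 l4
    have e2 : π y + π x = π x + π y := add_comm _ _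
    rw [e2] at l2
    have : F.nm (x + w) ≤ 0 := by linarith
    have hw0 := eq_zero_of_nm F this
    have hw1 : w = -x := by rw [eq_neg_iff_add_eq_zero, add_comm]; exact hw0
    right
    rw [← ht, hw1]
    have e3 : x + y + (-x + -x) = -(x - y) := by abel
    rw [e3, F.nm_neg]
  by_cases h2 : π w = π y
  · have e1 : π x + π y + π w = π x := by rw [h2, add_assoc, dd, add_zero]
    rw [e1] at l1
    rw [h2] at l3 l4
    have : F.nm (y + w) ≤ 0 := by linarith
    have hw0 := eq_zero_of_nm F this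
    have hw1 : w = -y := by rw [eq_neg_iff_add_eq_zero, add_comm]; exact hw0
    right
    rw [← ht, hw1]
    have e3 : x + y + (-y + -y) = x - y := by abel
    rw [e3]
  by_cases h3 : π w = π x + π y
  · have e1 : π y + π w = π x := by rw [h3, add_comm (π x), ← add_assoc, dd, zero_add]
    have e2 : π x + π w = π y := by rw [h3, ← add_assoc, dd, zero_add]
    rw [e1] at l2
    rw [e2] at l3
    rw [h3] at l4
    have : F.nm (x + y + w) ≤ 0 := by linarith
    have hw0 := eq_zero_of_nm F this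
    have hw1 : w = -(x + y) := by rw [eq_neg_iff_add_eq_zero, add_comm]; exact hw0
    left
    rw [← ht, hw1]
    have e3 : x + y + (-(x + y) + -(x + y)) = -(x + y) := by abel
    rw [e3, F.nm_neg]
  exfalso
  have hlt := coset_lt h.nonneg hg h0 h1 h2 h3
  have e1 : π w + π x + π y = π x + π y + π w := by abel
  have e2 : π w + π x = π x + π w := add_comm _ _
  have e3 : π w + π y = π y + π w := add_comm _ _
  rw [e1, e2, e3] at hlt
  linarith

/-- consequence for scalar products -/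
lemma abs_b (h : Adapted F π Λ) {x y : G} (hx : F.CMin x) (hy : F.CMin y)
    (hg : Good Λ (π x) (π y)) :
    |F.b x y| = ∑ t, Λ t * (br (t ⬝ᵥ π x) * br (t ⬝ᵥ π y)) := by
  have hx' := h.val _ hx
  have hy' := h.val _ hy
  have hk := h.key2 hx hy hg
  have a1 := F.nm_add x y
  have a2 := F.nm_sub x y
  have e1 : fL Λ (π x + π y) ≤ F.nm (x + y) := by
    have := h.le_nm (x + y); rwa [map_add] at this
  have e2 : fL Λ (π x + π y) ≤ F.nm (x - y) := by
    have := h.le_nm (x - y)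
    rw [map_sub] at this
    have e : π x - π y = π x + π y := by
      ext i; exact CharTwo.sub_eq_add _ _
    rwa [e] at this
  have e3 := fL_add Λ (π x) (π y)
  rcases abs_cases (F.b x y) with ⟨h1, h2⟩ | ⟨h1, h2⟩ <;> rcases hk with hk | hk <;>
    rw [h1] <;> linarith

end Adapted

end Pool.H48.Vonorm
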