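import Mathlib
import Pool.Agent.H48.Vonorm.Conorm

/-!
# Decomposition of classes, and generation by the basic vectors
-/

set_option autoImplicit false

open Matrix

namespace Pool.H48.Vonorm

variable {G : Type*} [AddCommGroup G] {n : ℕ}

/-- support of a class -/
def spt (v : Fin n → ZMod 2) : Finset (Fin n) := Finset.univ.filter fun i => v i ≠ 0

lemma mem_spt (v : Fin n → ZMod 2) (i : Fin n) : i ∈ spt v ↔ v i ≠ 0 := by simp [spt]

lemma spt_inj {u v : Fin n → ZMod 2} (h : spt u = spt v) : u = v := by
  ext i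
  have h1 : i ∈ spt u ↔ i ∈ spt v := by rw [h]
  rw [mem_spt, mem_spt] at h1
  rcases zmod2_cases (u i) with a | a <;> rcases zmod2_cases (v i) with b | b <;>
    rw [a, b] at h1 ⊢ <;> simp at h1

lemma dd (a : Fin n → ZMod 2) : a + a = 0 := by
  ext i; exact CharTwo.add_self_eq_zero _

lemma single_dot (i : Fin n) (v : Fin n → ZMod 2) : (Pi.single i 1 : Fin n → ZMod 2) ⬝ᵥ v = v i := by
  simp

/-- Decomposition of a class with at least two elements in its support. -/
lemma decomp {Λ : (Fin n → ZMod 2) → ℝ} (hΛ : ∀ t, 0 ≤ Λ t)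
    (hs : ∀ i, 0 < Λ (Pi.single i 1)) (I : Fin n → ZMod 2) (hI : 2 ≤ (spt I).card) :
    ∃ J J', I = J + J' ∧ (spt J).card < (spt I).card ∧ (spt J').card < (spt I).card ∧
      (fL Λ I = fL Λ J + fL Λ J' ∨ Good Λ J J') := by
  classical
  -- functionals killing `I`
  let SI : Finset (Fin n → ZMod 2) := Finset.univ.filter fun t => 0 < Λ t ∧ t ⬝ᵥ I = 0
  let T : (Fin n → ZMod 2) → Finset (Fin n → ZMod 2) := fun v => SI.filter fun t => t ⬝ᵥ v = 0
  let C : Finset (Fin n → ZMod 2) :=
    Finset.univ.filter fun v => v ≠ 0 ∧ v ≠ I ∧ spt v ⊆ spt I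
  have hmemT : ∀ v t, t ∈ T v ↔ (0 < Λ t ∧ t ⬝ᵥ I = 0) ∧ t ⬝ᵥ v = 0 := by
    intro v t
    simp [T, SI]
  have hmemC : ∀ v, v ∈ C ↔ v ≠ 0 ∧ v ≠ I ∧ spt v ⊆ spt I := by
    intro v; simp [C]
  -- facts on elements of `C`
  have hadd : ∀ v ∈ C, ∀ v' ∈ C, v ≠ v' → v + v' ≠ I → v + v' ∈ C := by
    intro v hv v' hv' hne hneI
    rw [hmemC] at hv hv' ⊢
    refine ⟨?_, hneI, ?_⟩
    · intro h0
      apply hne
      have : v + v' + v' = v' := by rw [h0, zero_add]
      rw [add_assoc, dd, add_zero] at this
      exact this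
    · intro i hi
      rw [mem_spt] at hi
      by_contra hc
      have h1 : v i = 0 := by
        by_contra h; exact hc (hv.2.2 ((mem_spt v i).mpr h))
      have h2 : v' i = 0 := by
        by_contra h; exact hc (hv'.2.2 ((mem_spt v' i).mpr h))
      apply hi
      simp [h1, h2]
  have hCne : C.Nonempty := by
    obtain ⟨i, hi, j, hj, hij⟩ := Finset.one_lt_card.mp (by omega : 1 < (spt I).card)
    refine ⟨Pi.single i 1, ?_⟩
    rw [hmemC]
    refine ⟨?_, ?_, ?_⟩
    · intro h
      have := congrFun h i
      simp at this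
    · intro h
      have h1 := (mem_spt I j).mp hj
      rw [← h] at h1
      apply h1
      simp [Ne.symm hij]
    · intro k hk
      rw [mem_spt] at hk
      by_cases hki : k = i
      · subst hki; exact hi
      · exfalso; apply hk; simp [hki]
  obtain ⟨J, hJC, hJmax⟩ := Finset.exists_max_image C (fun v => (T v).card) hCne
  have hJ := (hmemC J).mp hJC
  have hIJ : I = J + (I + J) := by rw [add_comm I J, ← add_assoc, dd, zero_add]
  have hJ'C : I + J ∈ C := by
    rw [hmemC]
    refine ⟨?_, ?_, ?_⟩
    · intro h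
      apply hJ.2.1
      have : I + J + J = J := by rw [h, zero_add]
      rw [add_assoc, dd, add_zero] at this
      exact this.symm
    · intro h
      apply hJ.1
      have : I + (I + J) = I + I := by rw [h]
      rw [← add_assoc, dd, zero_add] at this
      exact this
    · intro i hi
      rw [mem_spt] at hi
      by_contra hc
      have h1 : I i = 0 := by
        by_contra h; exact hc ((mem_spt I i).mpr h)
      have h2 : J i = 0 := by
        by_contra h; exact hc (hJ.2.2 ((mem_spt J i).mpr h))
      apply hi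
      simp [h1, h2]
  have hcard : ∀ v ∈ C, (spt v).card < (spt I).card := by
    intro v hv
    rw [hmemC] at hv
    apply Finset.card_lt_card
    rw [Finset.ssubset_iff_subset_ne]
    exact ⟨hv.2.2, fun h => hv.2.1 (spt_inj h)⟩
  refine ⟨J, I + J, hIJ, hcard J hJC, hcard _ hJ'C, ?_⟩
  by_cases hall : T J = SI
  · -- orthogonal case
    left
    have h1 := fL_add Λ J (I + J)
    rw [← hIJ] at h1
    rw [h1]
    have h2 : ∑ t, Λ t * (br (t ⬝ᵥ J) * br (t ⬝ᵥ (I + J))) = 0 := by
      apply Finset.sum_eq_zero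
      intro t _
      rcases (hΛ t).eq_or_lt with h | h
      · rw [← h, zero_mul]
      · rw [dotProduct_add]
        rcases zmod2_cases (t ⬝ᵥ I) with h3 | h3
        · have h4 : t ∈ T J := by
            rw [hall]; simp [SI, h, h3]
          rw [((hmemT J t).mp h4).2, br_zero]; ring
        · rcases zmod2_cases (t ⬝ᵥ J) with h5 | h5
          · rw [h5, br_zero]; ring
          · rw [h3, h5, show (1 : ZMod 2) + 1 = 0 from rfl, br_zero]; ring
    rw [h2]; ring
  · right
    intro w hw0 hwJ hwJ' hwI
    rw [← hIJ] at hwI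
    by_cases hsub : spt w ⊆ spt I
    · by_contra hcon
      push Not at hcon
      have hwC : w ∈ C := by rw [hmemC]; exact ⟨hw0, hwI, hsub⟩
      have hJwC : J + w ∈ C := by
        apply hadd J hJC w hwC (Ne.symm hwJ)
        intro h
        apply hwJ'
        rw [← h, add_comm J w, add_assoc, dd, add_zero]
      have hTw : T J ⊆ T w := by
        intro t ht
        rw [hmemT] at ht ⊢
        refine ⟨ht.1, ?_⟩
        have h1 : t ⬝ᵥ (I + J) = 0 := by rw [dotProduct_add, ht.1.2, ht.2, add_zero]
        rcases zmod2_cases (t ⬝ᵥ w) with h | h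
        · exact h
        · exact absurd h (hcon t ht.1.1 ht.2 h1)
      have hTJw : T J ⊆ T (J + w) := by
        intro t ht
        have h1 := hTw ht
        rw [hmemT] at ht h1 ⊢
        refine ⟨ht.1, ?_⟩
        rw [dotProduct_add, ht.2, h1.2, add_zero]
      have e1 : T J = T w := Finset.eq_of_subset_of_card_le hTw (hJmax w hwC)
      have e2 : T J = T (J + w) := Finset.eq_of_subset_of_card_le hTJw (hJmax _ hJwC)
      apply hall
      apply Finset.Subset.antisymm (Finset.filter_subset _ _)
      intro t ht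
      have ht' : 0 < Λ t ∧ t ⬝ᵥ I = 0 := by simpa [SI] using ht
      rw [hmemT]
      refine ⟨ht', ?_⟩
      rcases zmod2_cases (t ⬝ᵥ J) with h | h
      · exact h
      · exfalso
        rcases zmod2_cases (t ⬝ᵥ w) with h' | h'
        · have : t ∈ T w := by rw [hmemT]; exact ⟨ht', h'⟩
          rw [← e1, hmemT, h] at this
          exact absurd this.2 (by decide)
        · have : t ∈ T (J + w) := by
            rw [hmemT]; refine ⟨ht', ?_⟩
            rw [dotProduct_add, h, h']; rfl
          rw [← e2, hmemT, h] at this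
          exact absurd this.2 (by decide)
    · obtain ⟨l, hl, hlI⟩ := Finset.not_subset.mp hsub
      have hl' := (mem_spt w l).mp hl
      have hlI' : I l = 0 := by
        by_contra h; exact hlI ((mem_spt I l).mpr h)
      have hlJ : J l = 0 := by
        by_contra h; exact hlI (hJ.2.2 ((mem_spt J l).mpr h))
      refine ⟨Pi.single l 1, hs l, ?_, ?_, ?_⟩
      · rw [single_dot, hlJ]
      · rw [single_dot, Pi.add_apply, hlI', hlJ, add_zero]
      · rw [single_dot]
        rcases zmod2_cases (w l) with h | h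
        · exact absurd h hl'
        · exact h

/-- Descent: a subgroup containing a shortest vector of each class is everything. -/
lemma descent_weak (F : Form G) (M : AddSubgroup G)
    (hM : ∀ x, ∃ w, x + (w + w) ∈ M ∧ F.CMin (x + (w + w))) (x : G) : x ∈ M := by
  by_contra hx
  obtain ⟨x, hx, hmin⟩ := F.wf {x | x ∉ M} ⟨x, hx⟩
  obtain ⟨w, hyM, hw⟩ := hM x
  set y := x + (w + w) with hy
  have hx0 : x ≠ 0 := fun h => hx (by rw [h]; exact M.zero_mem)
  have hpos := F.pos x hx0
  have hle : F.nm y ≤ F.nm x := by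
    have := hw (-w)
    have h3 : y + (-w + -w) = x := by rw [hy]; abel
    rwa [h3] at this
  have hw1 : w ∉ M := fun h => hx (by
    have := M.sub_mem hyM (M.add_mem h h)
    have h3 : y - (w + w) = x := by rw [hy]; abel
    rwa [h3] at this)
  have hw2 : x + w ∉ M := fun h => hw1 (by
    have := M.sub_mem hyM h
    have h3 : y - (x + w) = w := by rw [hy]; abel
    rwa [h3] at this)
  have b1 := hmin _ hw1
  have b2 := hmin _ hw2
  have i1 : F.nm y + F.nm x = 2 * (F.nm w + F.nm (x + w)) := by
    rw [hy]; simp only [Form.nm, F.add_left, F.add_right, F.comm w x]; ring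
  change 0 < F.nm x at hpos
  change F.nm x ≤ F.nm w at b1
  change F.nm x ≤ F.nm (x + w) at b2
  linarith

namespace Adapted

variable {F : Form G} {π : G →+ (Fin n → ZMod 2)} {Λ : (Fin n → ZMod 2) → ℝ}

/-- basic vectors: shortest vectors of the coordinate classes -/
structure Basic (F : Form G) (π : G →+ (Fin n → ZMod 2)) (z : Fin n → G) : Prop where
  cls : ∀ i, π (z i) = Pi.single i 1
  cmin : ∀ i, F.CMin (z i)

lemma exists_basic (h : Adapted F π Λ) : ∃ z : Fin n → G, Basic F π z := by
  have : ∀ i : Fin n, ∃ x : G, π x = Pi.single i 1 ∧ F.CMin x := by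
    intro i
    obtain ⟨x, hx⟩ := h.surj (Pi.single i 1)
    obtain ⟨w, hw⟩ := F.exists_cmin x
    exact ⟨x + (w + w), by rw [map_add, pi_two, add_zero, hx], hw⟩
  choose z hz using this
  exact ⟨z, fun i => (hz i).1, fun i => (hz i).2⟩

lemma exists_rep (h : Adapted F π Λ) {z : Fin n → G} (hz : Basic F π z) :
    ∀ (k : ℕ) (I : Fin n → ZMod 2), (spt I).card = k →
      ∃ x ∈ AddSubgroup.closure (Set.range z), π x = I ∧ F.CMin x := by
  intro k
  induction k using Nat.strong_induction_on with
  | _ k ih =>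
    intro I hI
    by_cases h2 : 2 ≤ (spt I).card
    · obtain ⟨J, J', hIJ, hJ, hJ', hor⟩ := decomp h.nonneg h.sing I h2
      obtain ⟨x, hxM, hxJ, hx⟩ := ih _ (hI ▸ hJ) J rfl
      obtain ⟨x', hxM', hxJ', hx'⟩ := ih _ (hI ▸ hJ') J' rfl
      have hcls1 : π (x + x') = I := by rw [map_add, hxJ, hxJ', hIJ]
      have hcls2 : π (x - x') = I := by
        rw [map_sub, hxJ, hxJ', hIJ]; ext i; exact CharTwo.sub_eq_add _ _
      have hv := h.val _ hx
      have hv' := h.val _ hx'
      rcases hor with ho | hg
      · refine ⟨x + x', AddSubgroup.add_mem _ hxM hxM', hcls1, ?_⟩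
        rw [h.cmin_iff, hcls1]
        have a1 := h.le_nm (x + x')
        have a2 := h.le_nm (x - x')
        have a3 := F.nm_add x x'
        have a4 := F.nm_sub x x'
        rw [hcls1] at a1
        rw [hcls2] at a2
        rw [hxJ] at hv
        rw [hxJ'] at hv'
        linarith
      · rw [← hxJ, ← hxJ'] at hg
        rcases h.key2 hx hx' hg with hk | hk
        · refine ⟨x + x', AddSubgroup.add_mem _ hxM hxM', hcls1, ?_⟩
          rw [h.cmin_iff, hk, hcls1, hxJ, hxJ', ← hIJ]
        · refine ⟨x - x', AddSubgroup.sub_mem _ hxM hxM', hcls2, ?_⟩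
          rw [h.cmin_iff, hk, hcls2, hxJ, hxJ', ← hIJ]
    · by_cases h1 : (spt I).card = 1
      · obtain ⟨i, hi⟩ := Finset.card_eq_one.mp h1
        have hIi : I = Pi.single i 1 := by
          apply spt_inj
          rw [hi]
          ext j
          rw [mem_spt, Finset.mem_singleton]
          by_cases hj : j = i
          · subst hj; simp
          · simp [hj]
        exact ⟨z i, AddSubgroup.subset_closure ⟨i, rfl⟩, by rw [hz.cls, hIi], hz.cmin i⟩
      · have h0 : (spt I).card = 0 := by omega
        have hI0 : I = 0 := by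
          apply spt_inj
          rw [Finset.card_eq_zero.mp h0]
          ext j
          simp [mem_spt]
        refine ⟨0, AddSubgroup.zero_mem _, by rw [map_zero, hI0], ?_⟩
        rw [h.cmin_iff, map_zero, fL_zero, Form.nm, F.zero_left]

/-- the basic vectors generate the group -/
lemma closure_basic (h : Adapted F π Λ) {z : Fin n → G} (hz : Basic F π z) (x : G) :
    x ∈ AddSubgroup.closure (Set.range z) := by
  apply descent_weak F
  intro x
  obtain ⟨y, hyM, hy, hyc⟩ := h.exists_rep hz _ (π x) rfl
  obtain ⟨w, hw⟩ := h.ker x y hy.symm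
  exact ⟨w, hw ▸ hyM, hw ▸ hyc⟩

end Adapted

end Pool.H48.Vonorm
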