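import Mathlib
import Pool.Agent.H48.Vonorm.Conorm2

/-!
# Signs of scalar products of basic vectors
-/

set_option autoImplicit false

open Matrix

namespace Pool.H48.Vonorm

variable {G : Type*} [AddCommGroup G] {n : ℕ}

/-- common conorm mass of two coordinates -/
def cc (Λ : (Fin n → ZMod 2) → ℝ) (i j : Fin n) : ℝ :=
  ∑ t, Λ t * (br (t i) * br (t j))

lemma br_nonneg (a : ZMod 2) : 0 ≤ br a := by unfold br; split_ifs <;> norm_num

lemma cc_comm (Λ : (Fin n → ZMod 2) → ℝ) (i j : Fin n) : cc Λ i j = cc Λ j i := by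
  unfold cc
  refine Finset.sum_congr rfl fun t _ => ?_
  ring

lemma cc_nonneg {Λ : (Fin n → ZMod 2) → ℝ} (hΛ : ∀ t, 0 ≤ Λ t) (i j : Fin n) :
    0 ≤ cc Λ i j :=
  Finset.sum_nonneg fun t _ => mul_nonneg (hΛ t) (mul_nonneg (br_nonneg _) (br_nonneg _))

lemma cc_pos_of {Λ : (Fin n → ZMod 2) → ℝ} (hΛ : ∀ t, 0 ≤ Λ t) {i j : Fin n}
    {t : Fin n → ZMod 2} (ht : 0 < Λ t) (hi : t i = 1) (hj : t j = 1) : 0 < cc Λ i j := by
  unfold cc
  apply Finset.sum_pos'
  · intro t _
    exact mul_nonneg (hΛ t) (mul_nonneg (br_nonneg _) (br_nonneg _))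
  · refine ⟨t, Finset.mem_univ _, ?_⟩
    rw [hi, hj, br_one]; linarith

lemma exists_of_cc_pos {Λ : (Fin n → ZMod 2) → ℝ} (hΛ : ∀ t, 0 ≤ Λ t) {i j : Fin n}
    (h : 0 < cc Λ i j) : ∃ t, 0 < Λ t ∧ t i = 1 ∧ t j = 1 := by
  by_contra hc
  push Not at hc
  have : cc Λ i j = 0 := by
    unfold cc
    apply Finset.sum_eq_zero
    intro t _
    rcases (hΛ t).eq_or_lt with h1 | h1
    · rw [← h1, zero_mul]
    · rcases zmod2_cases (t i) with h2 | h2
      · rw [h2, br_zero]; ring
      · rcases zmod2_cases (t j) with h3 | h3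
        · rw [h3, br_zero]; ring
        · exact absurd h3 (hc t h1 h2)
  linarith

lemma not_both {Λ : (Fin n → ZMod 2) → ℝ} (hΛ : ∀ t, 0 ≤ Λ t) {i j : Fin n}
    (h : cc Λ i j = 0) {t : Fin n → ZMod 2} (ht : 0 < Λ t) (hi : t i = 1) : t j = 0 := by
  rcases zmod2_cases (t j) with h1 | h1
  · exact h1
  · have := cc_pos_of hΛ ht hi h1
    linarith

lemma good_single {Λ : (Fin n → ZMod 2) → ℝ} (hs : ∀ i, 0 < Λ (Pi.single i 1))
    {i j : Fin n} (hij : i ≠ j) :
    Good Λ (Pi.single i 1) (Pi.single j 1) := by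
  intro w h0 h1 h2 h3
  by_contra hc
  push Not at hc
  have hz : ∀ l, l ≠ i → l ≠ j → w l = 0 := by
    intro l hli hlj
    have := hc (Pi.single l 1) (hs l) (by rw [single_dot]; simp [Ne.symm hli, hli])
      (by rw [single_dot]; simp [hlj])
    rw [single_dot] at this
    rcases zmod2_cases (w l) with h | h
    · exact h
    · exact absurd h this
  have hw : w = Pi.single i (w i) + Pi.single j (w j) := by
    ext l
    by_cases hli : l = i
    · subst hli; simp [hij]
    · by_cases hlj : l = j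
      · subst hlj; simp [hli]
      · simp [hli, hlj, hz l hli hlj]
  rcases zmod2_cases (w i) with a | a <;> rcases zmod2_cases (w j) with b | b <;>
    rw [a, b] at hw
  · apply h0; rw [hw]; simp
  · apply h2; rw [hw]; simp
  · apply h1; rw [hw]; simp
  · exact h3 hw

namespace Adapted

variable {F : Form G} {π : G →+ (Fin n → ZMod 2)} {Λ : (Fin n → ZMod 2) → ℝ}

/-- `b` as a homomorphism in the first variable -/
def bh (F : Form G) (y : G) : G →+ ℝ where
  toFun x := F.b x y
  map_zero' := F.zero_left y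
  map_add' a c := F.add_left a c y

lemma b_sum (F : Form G) {ι : Type*} (s : Finset ι) (f : ι → G) (y : G) :
    F.b (∑ i ∈ s, f i) y = ∑ i ∈ s, F.b (f i) y := map_sum (bh F y) f s

lemma b_zsmul (F : Form G) (e : ℤ) (x y : G) : F.b (e • x) y = (e : ℝ) * F.b x y := by
  have := map_zsmul (bh F y) e x
  change F.b (e • x) y = e • F.b x y at this
  rw [this, zsmul_eq_mul]

lemma b_basic (h : Adapted F π Λ) {z : Fin n → G} (hz : Basic F π z) {i j : Fin n}
    (hij : i ≠ j) : |F.b (z i) (z j)| = cc Λ i j := by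
  rw [h.abs_b (hz.cmin i) (hz.cmin j) (by rw [hz.cls, hz.cls]; exact good_single h.sing hij),
    hz.cls, hz.cls]
  unfold cc
  refine Finset.sum_congr rfl fun t _ => ?_
  simp

lemma nm_basic (h : Adapted F π Λ) {z : Fin n → G} (hz : Basic F π z) (i : Fin n) :
    F.nm (z i) = fL Λ (Pi.single i 1) := by
  rw [h.val _ (hz.cmin i), hz.cls]

/-- triangles with a common conorm are positive -/
lemma triangle_pos (h : Adapted F π Λ) {z : Fin n → G} (hz : Basic F π z) {i j k : Fin n}
    (hij : i ≠ j) (hjk : j ≠ k) (hik : i ≠ k) {t : Fin n → ZMod 2} (ht : 0 < Λ t)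
    (hi : t i = 1) (hj : t j = 1) (hk : t k = 1) :
    0 < F.b (z i) (z j) * F.b (z j) (z k) * F.b (z i) (z k) := by
  have h1 := h.b_basic hz hij
  have h2 := h.b_basic hz hjk
  have h3 := h.b_basic hz hik
  have p1 := cc_pos_of h.nonneg ht hi hj
  have p2 := cc_pos_of h.nonneg ht hj hk
  have p3 := cc_pos_of h.nonneg ht hi hk
  have n1 := h.nm_basic hz i
  have n2 := h.nm_basic hz j
  have n3 := h.nm_basic hz k
  -- vonorm of the sum
  have hf : fL Λ (Pi.single i 1) + fL Λ (Pi.single j 1) + fL Λ (Pi.single k 1)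
      - 2 * (cc Λ i j + cc Λ j k + cc Λ i k)
      < fL Λ (Pi.single i 1 + Pi.single j 1 + Pi.single k 1) := by
    rw [fL_add, fL_add]
    have e1 : ∑ t, Λ t * (br (t ⬝ᵥ Pi.single i 1) * br (t ⬝ᵥ Pi.single j 1)) = cc Λ i j := by
      unfold cc
      refine Finset.sum_congr rfl fun t _ => ?_
      simp
    have e2 : ∑ t, Λ t * (br (t ⬝ᵥ (Pi.single i 1 + Pi.single j 1)) *
        br (t ⬝ᵥ Pi.single k 1)) < cc Λ j k + cc Λ i k := by
      unfold cc
      rw [← Finset.sum_add_distrib]
      have hb : ∀ t : Fin n → ZMod 2, Λ t * (br (t j) * br (t k)) + Λ t * (br (t i) * br (t k)) =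
          Λ t * (br (t ⬝ᵥ (Pi.single i 1 + Pi.single j 1)) * br (t ⬝ᵥ Pi.single k 1)) +
          2 * (Λ t * (br (t i) * br (t j) * br (t k))) := by
        intro t
        rw [dotProduct_add, dotProduct_single, dotProduct_single, dotProduct_single, mul_one,
          mul_one, mul_one]
        rcases zmod2_cases (t i) with a | a <;> rcases zmod2_cases (t j) with b | b <;>
          rw [a, b] <;> simp [br_zero, br_one, show (1 : ZMod 2) + 1 = 0 from rfl] <;> ring
      apply Finset.sum_lt_sum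
      · intro t _
        rw [hb t]
        have : 0 ≤ Λ t * (br (t i) * br (t j) * br (t k)) :=
          mul_nonneg (h.nonneg t) (mul_nonneg (mul_nonneg (br_nonneg _) (br_nonneg _))
            (br_nonneg _))
        linarith
      · refine ⟨t, Finset.mem_univ _, ?_⟩
        rw [hb t, hi, hj, hk, br_one]
        linarith
    rw [e1]
    linarith
  have c1 : π (z i + z j + z k) = Pi.single i 1 + Pi.single j 1 + Pi.single k 1 := by
    rw [map_add, map_add, hz.cls, hz.cls, hz.cls]
  have cs : ∀ a b : Fin n → ZMod 2, a - b = a + b := fun a b => by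
    ext i; exact CharTwo.sub_eq_add _ _
  have c2 : π (z i + z j - z k) = Pi.single i 1 + Pi.single j 1 + Pi.single k 1 := by
    rw [map_sub, map_add, hz.cls, hz.cls, hz.cls, cs]
  have c3 : π (z i - z j - z k) = Pi.single i 1 + Pi.single j 1 + Pi.single k 1 := by
    rw [map_sub, map_sub, hz.cls, hz.cls, hz.cls, cs, cs]
  have c4 : π (z i - z j + z k) = Pi.single i 1 + Pi.single j 1 + Pi.single k 1 := by
    rw [map_add, map_sub, hz.cls, hz.cls, hz.cls, cs]
  have l1 := h.le_nm (z i + z j + z k)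
  have l2 := h.le_nm (z i + z j - z k)
  have l3 := h.le_nm (z i - z j - z k)
  have l4 := h.le_nm (z i - z j + z k)
  rw [c1] at l1
  rw [c2] at l2
  rw [c3] at l3
  rw [c4] at l4
  have m1 : F.nm (z i + z j + z k) = F.nm (z i) + F.nm (z j) + F.nm (z k) +
      2 * (F.b (z i) (z j) + F.b (z j) (z k) + F.b (z i) (z k)) := by
    simp only [Form.nm, F.add_left, F.add_right, F.comm (z j) (z i), F.comm (z k) (z i),
      F.comm (z k) (z j)]; ring
  have m2 : F.nm (z i + z j - z k) = F.nm (z i) + F.nm (z j) + F.nm (z k) +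
      2 * (F.b (z i) (z j) - F.b (z j) (z k) - F.b (z i) (z k)) := by
    simp only [Form.nm, F.add_left, F.add_right, F.sub_left, F.sub_right, F.comm (z j) (z i),
      F.comm (z k) (z i), F.comm (z k) (z j)]; ring
  have m3 : F.nm (z i - z j - z k) = F.nm (z i) + F.nm (z j) + F.nm (z k) +
      2 * (- F.b (z i) (z j) + F.b (z j) (z k) - F.b (z i) (z k)) := by
    simp only [Form.nm, F.add_left, F.add_right, F.sub_left, F.sub_right, F.comm (z j) (z i),
      F.comm (z k) (z i), F.comm (z k) (z j)]; ring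
  have m4 : F.nm (z i - z j + z k) = F.nm (z i) + F.nm (z j) + F.nm (z k) +
      2 * (- F.b (z i) (z j) - F.b (z j) (z k) + F.b (z i) (z k)) := by
    simp only [Form.nm, F.add_left, F.add_right, F.sub_left, F.sub_right, F.comm (z j) (z i),
      F.comm (z k) (z i), F.comm (z k) (z j)]; ring
  rcases abs_cases (F.b (z i) (z j)) with ⟨a1, b1⟩ | ⟨a1, b1⟩ <;>
    rcases abs_cases (F.b (z j) (z k)) with ⟨a2, b2⟩ | ⟨a2, b2⟩ <;>
    rcases abs_cases (F.b (z i) (z k)) with ⟨a3, b3⟩ | ⟨a3, b3⟩ <;>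
    rw [a1] at h1 <;> rw [a2] at h2 <;> rw [a3] at h3
  · rw [h1, h2, h3]; positivity
  · exfalso; linarith
  · exfalso; linarith
  · have e2 : F.b (z j) (z k) = - cc Λ j k := by linarith
    have e3 : F.b (z i) (z k) = - cc Λ i k := by linarith
    rw [h1, e2, e3]
    have : cc Λ i j * -cc Λ j k * -cc Λ i k = cc Λ i j * cc Λ j k * cc Λ i k := by ring
    rw [this]; positivity
  · exfalso; linarith
  · have e2 : F.b (z i) (z j) = - cc Λ i j := by linarith
    have e3 : F.b (z i) (z k) = - cc Λ i k := by linarith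
    rw [h2, e2, e3]
    have : -cc Λ i j * cc Λ j k * -cc Λ i k = cc Λ i j * cc Λ j k * cc Λ i k := by ring
    rw [this]; positivity
  · have e2 : F.b (z i) (z j) = - cc Λ i j := by linarith
    have e3 : F.b (z j) (z k) = - cc Λ j k := by linarith
    rw [h3, e2, e3]
    have : -cc Λ i j * -cc Λ j k * cc Λ i k = cc Λ i j * cc Λ j k * cc Λ i k := by ring
    rw [this]; positivity
  · exfalso; linarith

end Adapted

end Pool.H48.Vonorm
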