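import Mathlib
import Pool.Agent.H48.Vonorm.Conorm3

/-!
# Chordless cycles
-/

set_option autoImplicit false

open Matrix

namespace Pool.H48.Vonorm

variable {G : Type*} [AddCommGroup G] {n : ℕ}

/-- A path `x 0, …, x l` which together with `j` forms a chordless cycle without a conorm
containing three of its members. -/
structure Chordless (Λ : (Fin n → ZMod 2) → ℝ) (x : ℕ → Fin n) (l : ℕ) (j : Fin n) : Prop where
  pos : 0 < l
  inj : ∀ a b, a < b → b ≤ l → x a ≠ x b
  nej : ∀ a, a ≤ l → x a ≠ j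
  far : ∀ a b, a + 1 < b → b ≤ l → cc Λ (x a) (x b) = 0
  farj : ∀ a, 0 < a → a < l → cc Λ (x a) j = 0
  adj : ∀ a, a < l → 0 < cc Λ (x a) (x (a + 1))
  adj0 : 0 < cc Λ (x 0) j
  adjl : 0 < cc Λ (x l) j
  three : ∀ t, 0 < Λ t → t j = 1 → ∀ a b, a < b → b ≤ l → ¬ (t (x a) = 1 ∧ t (x b) = 1)

/-- partial class sums -/
def Xs (x : ℕ → Fin n) (a : ℕ) : Fin n → ZMod 2 :=
  ∑ b ∈ Finset.range (a + 1), Pi.single (x b) 1

lemma dot_Xs (t : Fin n → ZMod 2) (x : ℕ → Fin n) (a : ℕ) :
    t ⬝ᵥ Xs x a = ∑ b ∈ Finset.range (a + 1), t (x b) := by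
  unfold Xs
  rw [dotProduct_sum]
  refine Finset.sum_congr rfl fun b _ => ?_
  simp

lemma Xs_succ (x : ℕ → Fin n) (a : ℕ) : Xs x (a + 1) = Xs x a + Pi.single (x (a + 1)) 1 := by
  unfold Xs
  rw [Finset.sum_range_succ]

namespace Chordless

variable {Λ : (Fin n → ZMod 2) → ℝ} {x : ℕ → Fin n} {l : ℕ} {j : Fin n}

lemma dot_step (hΛ : ∀ t, 0 ≤ Λ t) (h : Chordless Λ x l j) {t : Fin n → ZMod 2} (ht : 0 < Λ t)
    {a : ℕ} (ha : a < l) (hta : t (x (a + 1)) = 1) : t ⬝ᵥ Xs x a = t (x a) := by
  rw [dot_Xs, Finset.sum_range_succ, Finset.sum_eq_zero, zero_add]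
  intro b hb
  have hb' := Finset.mem_range.mp hb
  have := h.far b (a + 1) (by omega) (by omega)
  rw [cc_comm] at this
  exact not_both hΛ this ht hta

lemma fL_step (hΛ : ∀ t, 0 ≤ Λ t) (h : Chordless Λ x l j) {a : ℕ} (ha : a < l) :
    fL Λ (Xs x (a + 1)) = fL Λ (Xs x a) + fL Λ (Pi.single (x (a + 1)) 1) -
      2 * cc Λ (x a) (x (a + 1)) := by
  rw [Xs_succ, fL_add]
  congr 2
  unfold cc
  refine Finset.sum_congr rfl fun t _ => ?_
  rw [dotProduct_single, mul_one]
  rcases (hΛ t).eq_or_lt with h1 | h1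
  · rw [← h1, zero_mul, zero_mul]
  · rcases zmod2_cases (t (x (a + 1))) with h2 | h2
    · rw [h2, br_zero]; ring
    · rw [h.dot_step hΛ h1 ha h2]

/-- the pair `(X, j)` is good -/
lemma good (hΛ : ∀ t, 0 ≤ Λ t) (hs : ∀ i, 0 < Λ (Pi.single i 1)) (h : Chordless Λ x l j) :
    Good Λ (Xs x l) (Pi.single j 1) := by
  intro w h0 h1 h2 h3
  by_contra hc
  push Not at hc
  -- `w` vanishes outside the cycle
  have hout : ∀ m, m ≠ j → (∀ a, a ≤ l → m ≠ x a) → w m = 0 := by
    intro m hmj hmx
    have := hc (Pi.single m 1) (hs m) (by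
      rw [dot_Xs]
      apply Finset.sum_eq_zero
      intro b hb
      have hb' := Finset.mem_range.mp hb
      simp [Ne.symm (hmx b (by omega))]) (by rw [single_dot]; simp [hmj])
    rw [single_dot] at this
    rcases zmod2_cases (w m) with h | h
    · exact h
    · exact absurd h this
  -- `w` is constant on the path
  have hstep : ∀ a, a < l → w (x a) = w (x (a + 1)) := by
    intro a ha
    obtain ⟨t, ht, hta, hta'⟩ := exists_of_cc_pos hΛ (h.adj a ha)
    have htj : t j = 0 := by
      rcases zmod2_cases (t j) with h4 | h4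
      · exact h4
      · exact absurd ⟨hta, hta'⟩ (h.three t ht h4 a (a + 1) (by omega) (by omega))
    have hoth : ∀ b, b ≤ l → b ≠ a → b ≠ a + 1 → t (x b) = 0 := by
      intro b hb hba hba'
      rcases Nat.lt_or_ge b a with h4 | h4
      · have := h.far b (a + 1) (by omega) (by omega)
        rw [cc_comm] at this
        exact not_both hΛ this ht hta'
      · have := h.far a b (by omega) hb
        exact not_both hΛ this ht hta
    have e1 : t ⬝ᵥ Xs x l = 0 := by
      rw [dot_Xs]
      have : ∑ b ∈ Finset.range (l + 1), t (x b) = t (x a) + t (x (a + 1)) := by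
        rw [Finset.sum_eq_add a (a + 1) (by omega)]
        · intro b hb hbne
          exact hoth b (by have := Finset.mem_range.mp hb; omega) hbne.1 hbne.2
        · intro hn; exact absurd (Finset.mem_range.mpr (by omega)) hn
        · intro hn; exact absurd (Finset.mem_range.mpr (by omega)) hn
      rw [this, hta, hta']; rfl
    have e2 : t ⬝ᵥ Pi.single j 1 = 0 := by rw [dotProduct_single, htj, zero_mul]
    have e3 := hc t ht e1 e2
    have e4 : t ⬝ᵥ w = w (x a) + w (x (a + 1)) := by
      unfold dotProduct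
      rw [Fintype.sum_eq_add (x a) (x (a + 1)) (h.inj a (a + 1) (by omega) (by omega))]
      · rw [hta, hta', one_mul, one_mul]
      · intro m hm
        by_cases hmj : m = j
        · rw [hmj, htj, zero_mul]
        · by_cases hmx : ∀ b, b ≤ l → m ≠ x b
          · rw [hout m hmj hmx, mul_zero]
          · push Not at hmx
            obtain ⟨b, hb, rfl⟩ := hmx
            rw [hoth b hb (fun hh => hm.1 (by rw [hh])) (fun hh => hm.2 (by rw [hh])), zero_mul]
    rw [e4] at e3
    rcases zmod2_cases (w (x a)) with h5 | h5 <;>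
      rcases zmod2_cases (w (x (a + 1))) with h6 | h6 <;> rw [h5, h6] at e3 ⊢
    · exact absurd (by rfl) e3
    · exact absurd (by rfl) e3
  have hconst : ∀ a, a ≤ l → w (x a) = w (x 0) := by
    intro a
    induction a with
    | zero => intro _; rfl
    | succ a ih =>
      intro ha
      rw [← hstep a (by omega)]
      exact ih (by omega)
  have hXs : ∀ m, Xs x l m = if ∃ a, a ≤ l ∧ m = x a then 1 else 0 := by
    intro m
    have e : Xs x l m = (Pi.single m 1 : Fin n → ZMod 2) ⬝ᵥ Xs x l := by rw [single_dot]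
    rw [e, dot_Xs]
    split_ifs with hm
    · obtain ⟨a, ha, rfl⟩ := hm
      rw [Finset.sum_eq_single a]
      · simp
      · intro b hb hba
        have hb' := Finset.mem_range.mp hb
        have : x b ≠ x a := by
          rcases Nat.lt_or_gt_of_ne hba with h4 | h4
          · exact h.inj b a h4 ha
          · exact (h.inj a b h4 (by omega)).symm
        simp [this]
      · intro hn; exact absurd (Finset.mem_range.mpr (by omega)) hn
    · apply Finset.sum_eq_zero
      intro b hb
      have hb' := Finset.mem_range.mp hb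
      have : x b ≠ m := fun hh => hm ⟨b, by omega, hh.symm⟩
      simp [this]
  have hw : w = w (x 0) • Xs x l + Pi.single j (w j) := by
    ext m
    rw [Pi.add_apply, Pi.smul_apply, hXs, smul_eq_mul]
    by_cases hmj : m = j
    · subst hmj
      have : ¬ ∃ a, a ≤ l ∧ m = x a := by
        rintro ⟨a, ha, hh⟩; exact h.nej a ha hh.symm
      rw [if_neg this]; simp
    · rw [Pi.single_eq_of_ne hmj, add_zero]
      split_ifs with hm
      · obtain ⟨a, ha, rfl⟩ := hm
        rw [hconst a ha, mul_one]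
      · push Not at hm
        rw [hout m hmj hm, mul_zero]
  rcases zmod2_cases (w (x 0)) with a | a <;> rcases zmod2_cases (w j) with b | b <;>
    rw [a, b] at hw
  · apply h0; rw [hw]; simp
  · apply h2; rw [hw]; simp
  · apply h1; rw [hw]; simp
  · apply h3; rw [hw]; simp

end Chordless

namespace Adapted

variable {F : Form G} {π : G →+ (Fin n → ZMod 2)} {Λ : (Fin n → ZMod 2) → ℝ}

/-- the sign rule for chordless cycles -/
lemma chordless_sign (h : Adapted F π Λ) {z : Fin n → G} (hz : Basic F π z)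
    {x : ℕ → Fin n} {l : ℕ} {j : Fin n} (hc : Chordless Λ x l j) (e : ℕ → ℤ)
    (he : ∀ a, e a = 1 ∨ e a = -1)
    (hee : ∀ a, a < l → (e a : ℝ) * (e (a + 1) : ℝ) * F.b (z (x a)) (z (x (a + 1))) =
      - cc Λ (x a) (x (a + 1))) :
    ((e 0 : ℝ) * F.b (z (x 0)) (z j) = cc Λ (x 0) j ∧
      (e l : ℝ) * F.b (z (x l)) (z j) = cc Λ (x l) j) ∨
    ((e 0 : ℝ) * F.b (z (x 0)) (z j) = - cc Λ (x 0) j ∧
      (e l : ℝ) * F.b (z (x l)) (z j) = - cc Λ (x l) j) := by
  have hesq : ∀ a, (e a : ℝ) * (e a : ℝ) = 1 := by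
    intro a
    rcases he a with h1 | h1 <;> rw [h1] <;> norm_num
  have hzero : ∀ a m, x a ≠ m → cc Λ (x a) m = 0 → F.b (z (x a)) (z m) = 0 := by
    intro a m hne h0
    have := h.b_basic hz hne
    rw [h0] at this
    exact abs_eq_zero.mp this
  let v : ℕ → G := fun a => ∑ b ∈ Finset.range (a + 1), e b • z (x b)
  have hvs : ∀ a, v (a + 1) = v a + e (a + 1) • z (x (a + 1)) := by
    intro a
    simp only [v]
    rw [Finset.sum_range_succ]
  have hπe : ∀ a m, π (e a • z m) = Pi.single m 1 := by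
    intro a m
    rcases he a with h1 | h1
    · rw [h1, one_smul, hz.cls]
    · rw [h1, neg_smul, one_smul, map_neg, hz.cls]
      ext i
      rw [Pi.neg_apply]
      exact CharTwo.neg_eq _
  have hπv : ∀ a, π (v a) = Xs x a := by
    intro a
    simp only [v, Xs, map_sum]
    exact Finset.sum_congr rfl fun b _ => hπe b (x b)
  have hbv : ∀ a m, F.b (v a) (z m) =
      ∑ b ∈ Finset.range (a + 1), (e b : ℝ) * F.b (z (x b)) (z m) := by
    intro a m
    simp only [v]
    rw [b_sum]
    exact Finset.sum_congr rfl fun b _ => b_zsmul F _ _ _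
  have hnm : ∀ a, a ≤ l → F.nm (v a) = fL Λ (Xs x a) := by
    intro a
    induction a with
    | zero =>
      intro _
      simp only [v, Xs, zero_add, Finset.sum_range_one]
      rw [← h.nm_basic hz]
      simp only [Form.nm]
      rw [b_zsmul, F.comm, b_zsmul, ← mul_assoc, hesq, one_mul]
    | succ a ih =>
      intro ha
      have ih' := ih (by omega)
      rw [hvs, F.nm_add, ih', hc.fL_step h.nonneg (by omega : a < l)]
      have e1 : F.nm (e (a + 1) • z (x (a + 1))) = fL Λ (Pi.single (x (a + 1)) 1) := by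
        rw [← h.nm_basic hz]
        simp only [Form.nm]
        rw [b_zsmul, F.comm, b_zsmul, ← mul_assoc, hesq, one_mul]
      have e2 : F.b (v a) (e (a + 1) • z (x (a + 1))) = - cc Λ (x a) (x (a + 1)) := by
        rw [F.comm, b_zsmul, F.comm, hbv, Finset.sum_range_succ, Finset.sum_eq_zero, zero_add,
          ← hee a (by omega)]
        · ring
        · intro b hb
          have hb' := Finset.mem_range.mp hb
          rw [hzero b _ (hc.inj b (a + 1) (by omega) (by omega))
            (hc.far b (a + 1) (by omega) (by omega)), mul_zero]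
      rw [e1, e2]
      ring
  have hcv : F.CMin (v l) := by
    rw [h.cmin_iff, hnm l le_rfl, hπv]
  have hab := h.abs_b hcv (hz.cmin j) (by
    rw [hπv, hz.cls]; exact hc.good h.nonneg h.sing)
  have hlhs : F.b (v l) (z j) = (e 0 : ℝ) * F.b (z (x 0)) (z j) +
      (e l : ℝ) * F.b (z (x l)) (z j) := by
    rw [hbv, Finset.sum_eq_add 0 l (by have := hc.pos; omega)]
    · intro b hb hbne
      have hb' := Finset.mem_range.mp hb
      rw [hzero b j (hc.nej b (by omega)) (hc.farj b (by omega) (by omega)), mul_zero]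
    · intro hn; exact absurd (Finset.mem_range.mpr (by omega)) hn
    · intro hn; exact absurd (Finset.mem_range.mpr (by omega)) hn
  have hrhs : ∑ t, Λ t * (br (t ⬝ᵥ π (v l)) * br (t ⬝ᵥ π (z j))) =
      cc Λ (x 0) j + cc Λ (x l) j := by
    unfold cc
    rw [← Finset.sum_add_distrib, hπv, hz.cls]
    refine Finset.sum_congr rfl fun t _ => ?_
    rw [dotProduct_single, mul_one]
    rcases (h.nonneg t).eq_or_lt with h1 | h1
    · rw [← h1]; ring
    · rcases zmod2_cases (t j) with h2 | h2
      · rw [h2, br_zero]; ring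
      · have e1 : t ⬝ᵥ Xs x l = t (x 0) + t (x l) := by
          rw [dot_Xs, Finset.sum_eq_add 0 l (by have := hc.pos; omega)]
          · intro b hb hbne
            have hb' := Finset.mem_range.mp hb
            have := hc.farj b (by omega) (by omega)
            rw [cc_comm] at this
            exact not_both h.nonneg this h1 h2
          · intro hn; exact absurd (Finset.mem_range.mpr (by omega)) hn
          · intro hn; exact absurd (Finset.mem_range.mpr (by omega)) hn
        rw [e1]
        have h3 := hc.three t h1 h2 0 l hc.pos le_rfl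
        rcases zmod2_cases (t (x 0)) with h4 | h4 <;> rcases zmod2_cases (t (x l)) with h5 | h5
        · rw [h4, h5]; simp [br_zero]
        · rw [h4, h5]; simp [br_zero]
        · rw [h4, h5]; simp [br_zero]
        · exact absurd ⟨h4, h5⟩ h3
  rw [hlhs, hrhs] at hab
  have g0 : |(e 0 : ℝ) * F.b (z (x 0)) (z j)| = cc Λ (x 0) j := by
    rw [abs_mul, h.b_basic hz (hc.nej 0 (by omega))]
    rcases he 0 with h1 | h1 <;> rw [h1] <;> norm_num
  have gl : |(e l : ℝ) * F.b (z (x l)) (z j)| = cc Λ (x l) j := by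
    rw [abs_mul, h.b_basic hz (hc.nej l le_rfl)]
    rcases he l with h1 | h1 <;> rw [h1] <;> norm_num
  have p0 := hc.adj0
  have pl := hc.adjl
  rcases abs_cases ((e 0 : ℝ) * F.b (z (x 0)) (z j)) with ⟨a1, b1⟩ | ⟨a1, b1⟩ <;>
    rcases abs_cases ((e l : ℝ) * F.b (z (x l)) (z j)) with ⟨a2, b2⟩ | ⟨a2, b2⟩ <;>
    rw [a1] at g0 <;> rw [a2] at gl
  · left; exact ⟨g0, gl⟩
  · exfalso
    rcases abs_cases ((e 0 : ℝ) * F.b (z (x 0)) (z j) + (e l : ℝ) * F.b (z (x l)) (z j)) with
      ⟨a3, b3⟩ | ⟨a3, b3⟩ <;> rw [a3] at hab <;> linarith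
  · exfalso
    rcases abs_cases ((e 0 : ℝ) * F.b (z (x 0)) (z j) + (e l : ℝ) * F.b (z (x l)) (z j)) with
      ⟨a3, b3⟩ | ⟨a3, b3⟩ <;> rw [a3] at hab <;> linarith
  · right; constructor <;> linarith

end Adapted

end Pool.H48.Vonorm
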