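import Mathlib
import Pool.Agent.H48.Vonorm.Conorm4

/-!
# Two forms with the same nonnegative conorms have the same scalar products up to signs of vectors
-/

set_option autoImplicit false

open Matrix

namespace Pool.H48.Vonorm

variable {G G' : Type*} [AddCommGroup G] [AddCommGroup G'] {n : ℕ}

open Classical in
/-- sign sequence flipping exactly at the places where `P` holds -/
noncomputable def sgnSeq (P : ℕ → Prop) : ℕ → ℤ
  | 0 => 1
  | a + 1 => if P a then - sgnSeq P a else sgnSeq P a

lemma sgnSeq_cases (P : ℕ → Prop) (a : ℕ) : sgnSeq P a = 1 ∨ sgnSeq P a = -1 := by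
  induction a with
  | zero => left; rfl
  | succ a ih =>
    unfold sgnSeq
    split_ifs
    · rcases ih with h1 | h1 <;> rw [h1] <;> simp
    · exact ih

namespace Adapted

variable {F : Form G} {π : G →+ (Fin n → ZMod 2)} {Λ : (Fin n → ZMod 2) → ℝ}
variable {F' : Form G'} {π' : G' →+ (Fin n → ZMod 2)}

/-- adjacency graph on a set of coordinates -/
def gr (Λ : (Fin n → ZMod 2) → ℝ) (X : Finset (Fin n)) : SimpleGraph (Fin n) where
  Adj i k := i ≠ k ∧ i ∈ X ∧ k ∈ X ∧ 0 < cc Λ i k
  symm := ⟨fun i k h => ⟨h.1.symm, h.2.2.1, h.2.1, by rw [cc_comm]; exact h.2.2.2⟩⟩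
  loopless := ⟨fun i h => h.1 rfl⟩

lemma extend_val (h : Adapted F π Λ) (h' : Adapted F' π' Λ) {z : Fin n → G} {z' : Fin n → G'}
    (hz : Basic F π z) (hz' : Basic F' π' z') (X : Finset (Fin n)) (j : Fin n) (hj : j ∉ X)
    (ε : Fin n → ℤ) (hε : ∀ i, ε i = 1 ∨ ε i = -1)
    (hX : ∀ i ∈ X, ∀ k ∈ X, i ≠ k → F.b (z i) (z k) = ε i * ε k * F'.b (z' i) (z' k))
    (τ : Fin n → ℤ) (hτ : ∀ i, τ i = 1 ∨ τ i = -1)
    (hτj : ∀ i, F.b (z i) (z j) = τ i * F'.b (z' i) (z' j)) :
    ∀ (d : ℕ) (i i' : Fin n), i ∈ X → i' ∈ X → 0 < cc Λ i j → 0 < cc Λ i' j →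
      (gr Λ X).Reachable i i' → (gr Λ X).dist i i' = d → ε i * τ i = ε i' * τ i' := by
  intro d
  induction d using Nat.strong_induction_on with
  | _ d ih =>
    intro i i' hi hi' hci hci' hr hd
    by_cases hii : i = i'
    · rw [hii]
    obtain ⟨p, hp⟩ := hr.exists_walk_length_eq_dist
    rw [hd] at hp
    have hdpos : 0 < d := by
      rcases Nat.eq_zero_or_pos d with h0 | h0
      · exfalso; apply hii
        rw [h0] at hp
        exact SimpleGraph.Walk.eq_of_length_eq_zero hp
      · exact h0
    have hx0 : p.getVert 0 = i := p.getVert_zero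
    have hxd : p.getVert d = i' := by rw [← hp]; exact p.getVert_length
    have hadj : ∀ a, a < d → (gr Λ X).Adj (p.getVert a) (p.getVert (a + 1)) := by
      intro a ha
      exact p.adj_getVert_succ (by omega)
    have hmem : ∀ a, a ≤ d → p.getVert a ∈ X := by
      intro a ha
      rcases ha.lt_or_eq with h1 | h1
      · exact (hadj a h1).2.1
      · rw [h1, hxd]; exact hi'
    have htake : ∀ a, a ≤ d → (p.take a).length = a := by
      intro a ha
      rw [SimpleGraph.Walk.take_length, hp]; exact min_eq_left ha
    have hdrop : ∀ b, (p.drop b).length = d - b := by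
      intro b
      rw [SimpleGraph.Walk.drop_length, hp]
    by_cases hint : ∃ m, 0 < m ∧ m < d ∧ 0 < cc Λ (p.getVert m) j
    · obtain ⟨m, hm0, hmd, hcm⟩ := hint
      have d1 : (gr Λ X).dist i (p.getVert m) ≤ m := by
        have := SimpleGraph.dist_le (p.take m)
        rwa [htake m hmd.le] at this
      have d2 : (gr Λ X).dist (p.getVert m) i' ≤ d - m := by
        have := SimpleGraph.dist_le (p.drop m)
        rwa [hdrop m] at this
      have e1 := ih _ (by omega) i (p.getVert m) hi (hmem m hmd.le) hci hcm
        ⟨p.take m⟩ rfl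
      have e2 := ih _ (by omega) (p.getVert m) i' (hmem m hmd.le) hi' hcm hci'
        ⟨p.drop m⟩ rfl
      rw [e1, e2]
    push Not at hint
    by_cases ht : ∃ t, 0 < Λ t ∧ t j = 1 ∧ t i = 1 ∧ t i' = 1
    · -- triangle with a common conorm
      obtain ⟨t, ht, htj, hti, hti'⟩ := ht
      have hij : i ≠ j := fun hh => hj (hh ▸ hi)
      have hij' : i' ≠ j := fun hh => hj (hh ▸ hi')
      have t1 := h.triangle_pos hz hii hij' hij ht hti hti' htj
      have t2 := h'.triangle_pos hz' hii hij' hij ht hti hti' htj
      rw [hX i hi i' hi' hii, hτj i, hτj i'] at t1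
      have t3 : (0 : ℝ) < ((ε i * ε i' * τ i' * τ i : ℤ) : ℝ) := by
        push_cast
        have e : (ε i : ℝ) * ε i' * F'.b (z' i) (z' i') * (τ i' * F'.b (z' i') (z' j)) *
            (τ i * F'.b (z' i) (z' j)) =
            ((ε i : ℝ) * ε i' * τ i' * τ i) *
              (F'.b (z' i) (z' i') * F'.b (z' i') (z' j) * F'.b (z' i) (z' j)) := by ring
        rw [e] at t1
        exact (pos_iff_pos_of_mul_pos t1).mpr t2
      have t4 : 0 < ε i * ε i' * τ i' * τ i := by exact_mod_cast t3
      rcases hε i with a1 | a1 <;> rcases hε i' with a2 | a2 <;> rcases hτ i with a3 | a3 <;>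
        rcases hτ i' with a4 | a4 <;> rw [a1, a2, a3, a4] at t4 ⊢ <;> simp at t4 ⊢
    · -- chordless cycle
      have hc : Chordless Λ (fun a => p.getVert a) d j := by
        refine ⟨hdpos, ?_, ?_, ?_, ?_, ?_, ?_, ?_, ?_⟩
        · intro a b hab hb heq
          have := SimpleGraph.dist_le ((p.take a).append ((p.drop b).copy heq.symm rfl))
          rw [SimpleGraph.Walk.length_append, SimpleGraph.Walk.length_copy, htake a (by omega),
            hdrop b, hd] at this
          omega
        · intro a ha heq
          exact hj (heq ▸ hmem a ha)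
        · intro a b hab hb
          by_contra hne
          have hpos : 0 < cc Λ (p.getVert a) (p.getVert b) :=
            lt_of_le_of_ne (cc_nonneg h.nonneg _ _) (Ne.symm hne)
          have hne' : p.getVert a ≠ p.getVert b := by
            intro heq
            have := SimpleGraph.dist_le ((p.take a).append ((p.drop b).copy heq.symm rfl))
            rw [SimpleGraph.Walk.length_append, SimpleGraph.Walk.length_copy,
              htake a (by omega), hdrop b, hd] at this
            omega
          have hA : (gr Λ X).Adj (p.getVert a) (p.getVert b) :=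
            ⟨hne', hmem a (by omega), hmem b hb, hpos⟩
          have := SimpleGraph.dist_le ((p.take a).append (SimpleGraph.Walk.cons hA (p.drop b)))
          rw [SimpleGraph.Walk.length_append, SimpleGraph.Walk.length_cons,
            htake a (by omega), hdrop b, hd] at this
          omega
        · intro a ha ha'
          exact le_antisymm (hint a ha ha') (cc_nonneg h.nonneg _ _)
        · intro a ha
          exact (hadj a ha).2.2.2
        · rw [hx0]; exact hci
        · rw [hxd]; exact hci'
        · rintro t ht0 htj a b hab hb ⟨hta, htb⟩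
          apply ht
          have ha0 : a = 0 := by
            by_contra hne
            have := hint a (by omega) (by omega)
            have := cc_pos_of h.nonneg ht0 hta htj
            linarith
          have hbd : b = d := by
            by_contra hne
            have := hint b (by omega) (by omega)
            have := cc_pos_of h.nonneg ht0 htb htj
            linarith
          refine ⟨t, ht0, htj, ?_, ?_⟩
          · rw [ha0] at hta; simpa [hx0] using hta
          · rw [hbd] at htb; simpa [hxd] using htb
      -- the sign sequence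
      let e : ℕ → ℤ := sgnSeq fun a =>
        F.b (z (p.getVert a)) (z (p.getVert (a + 1))) = cc Λ (p.getVert a) (p.getVert (a + 1))
      have he : ∀ a, e a = 1 ∨ e a = -1 := sgnSeq_cases _
      have hesq : ∀ a, (e a : ℝ) * (e a : ℝ) = 1 := by
        intro a
        rcases he a with h1 | h1 <;> rw [h1] <;> norm_num
      have hee : ∀ a, a < d → (e a : ℝ) * (e (a + 1) : ℝ) *
          F.b (z (p.getVert a)) (z (p.getVert (a + 1))) =
          - cc Λ (p.getVert a) (p.getVert (a + 1)) := by
        intro a ha
        have hb := h.b_basic hz (hadj a ha).1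
        by_cases h1 : F.b (z (p.getVert a)) (z (p.getVert (a + 1))) =
            cc Λ (p.getVert a) (p.getVert (a + 1))
        · have h5 : e (a + 1) = - e a := by
            simp only [e]
            rw [sgnSeq, if_pos h1]
          rw [h5, h1]
          push_cast
          linear_combination (-(cc Λ (p.getVert a) (p.getVert (a + 1)))) * hesq a
        · have h2 : F.b (z (p.getVert a)) (z (p.getVert (a + 1))) =
              - cc Λ (p.getVert a) (p.getVert (a + 1)) := by
            rcases abs_choice (F.b (z (p.getVert a)) (z (p.getVert (a + 1)))) with h3 | h3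
            · rw [h3] at hb; exact absurd hb h1
            · rw [h3] at hb; linarith
          have h5 : e (a + 1) = e a := by
            simp only [e]
            rw [sgnSeq, if_neg h1]
          rw [h5, h2]
          linear_combination (-(cc Λ (p.getVert a) (p.getVert (a + 1)))) * hesq a
      have hee' : ∀ a, a < d → ((e a * ε (p.getVert a) : ℤ) : ℝ) *
          ((e (a + 1) * ε (p.getVert (a + 1)) : ℤ) : ℝ) *
          F'.b (z' (p.getVert a)) (z' (p.getVert (a + 1))) =
          - cc Λ (p.getVert a) (p.getVert (a + 1)) := by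
        intro a ha
        rw [← hee a ha, hX _ (hmem a ha.le) _ (hmem (a + 1) ha) (hadj a ha).1]
        push_cast
        ring
      have r1 := h.chordless_sign hz hc e he hee
      have r2 := h'.chordless_sign hz' hc (fun a => e a * ε (p.getVert a)) (by
        intro a
        rcases he a with h1 | h1 <;> rcases hε (p.getVert a) with h2 | h2 <;>
          simp [h1, h2]) hee'
      simp only [hx0, hxd] at r1 r2
      rw [hτj i, hτj i'] at r1
      have he0 : e 0 = 1 := rfl
      rw [he0] at r1 r2
      have hεd := hε i'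
      have hεi := hε i
      have hτi := hτ i
      have hτi' := hτ i'
      push_cast at r2
      rcases he d with g1 | g1 <;> rw [g1] at r1 r2 <;>
      rcases hε i with a1 | a1 <;> rcases hε i' with a2 | a2 <;> rcases hτ i with a3 | a3 <;>
        rcases hτ i' with a4 | a4 <;> rw [a1, a2] at r2 <;> rw [a3, a4] at r1 <;>
        rw [a1, a2, a3, a4]
      all_goals first
        | (norm_num; done)
        | (exfalso
           norm_num at r1 r2
           rcases r1 with ⟨u1, u2⟩ | ⟨u1, u2⟩ <;> rcases r2 with ⟨v1, v2⟩ | ⟨v1, v2⟩ <;> linarith)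

/-- The scalar products of the basic vectors of two adapted forms agree after changing signs of
basic vectors. -/
lemma exists_signs (h : Adapted F π Λ) (h' : Adapted F' π' Λ) {z : Fin n → G} {z' : Fin n → G'}
    (hz : Basic F π z) (hz' : Basic F' π' z') (X : Finset (Fin n)) :
    ∃ ε : Fin n → ℤ, (∀ i, ε i = 1 ∨ ε i = -1) ∧
      ∀ i ∈ X, ∀ k ∈ X, i ≠ k → F.b (z i) (z k) = ε i * ε k * F'.b (z' i) (z' k) := by
  classical
  induction X using Finset.induction_on with
  | empty => exact ⟨fun _ => 1, fun _ => Or.inl rfl, by simp⟩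
  | insert j X hj ih =>
    obtain ⟨ε, hε, hX⟩ := ih
    -- relative signs with `j`
    have hτex : ∀ i : Fin n, ∃ s : ℤ, (s = 1 ∨ s = -1) ∧
        F.b (z i) (z j) = s * F'.b (z' i) (z' j) := by
      intro i
      by_cases hij : i = j
      · refine ⟨1, Or.inl rfl, ?_⟩
        have e1 := h.nm_basic hz j
        have e2 := h'.nm_basic hz' j
        rw [hij]
        simp only [Form.nm] at e1 e2
        rw [e1, e2]; simp
      · have e1 := h.b_basic hz hij
        have e2 := h'.b_basic hz' hij
        rw [← e2] at e1
        rcases abs_eq_abs.mp e1 with e3 | e3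
        · exact ⟨1, Or.inl rfl, by rw [e3]; simp⟩
        · exact ⟨-1, Or.inr rfl, by rw [e3]; simp⟩
    choose τ hτ hτj using hτex
    have hval := h.extend_val h' hz hz' X j hj ε hε hX τ hτ hτj
    let P : Fin n → Fin n → Prop := fun i i' => i' ∈ X ∧ 0 < cc Λ i' j ∧ (gr Λ X).Reachable i i'
    let κ : Fin n → ℤ := fun i => if hP : ∃ i', P i i' then ε hP.choose * τ hP.choose else 1
    have hκ : ∀ i, κ i = 1 ∨ κ i = -1 := by
      intro i
      simp only [κ]
      split_ifs with hP
      · rcases hε hP.choose with a | a <;> rcases hτ hP.choose with b | b <;> rw [a, b] <;> simp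
      · left; rfl
    have hκP : ∀ i i', P i i' → κ i = ε i' * τ i' := by
      intro i i' hi'
      have hP : ∃ i', P i i' := ⟨i', hi'⟩
      simp only [κ]
      rw [dif_pos hP]
      obtain ⟨c1, c2, c3⟩ := hP.choose_spec
      exact hval _ _ _ c1 hi'.1 c2 hi'.2.1 (c3.symm.trans hi'.2.2) rfl
    have hκadj : ∀ i k, (gr Λ X).Adj i k → κ i = κ k := by
      intro i k hik
      by_cases hP : ∃ i', P i i'
      · obtain ⟨i', hi'⟩ := hP
        rw [hκP i i' hi', hκP k i' ⟨hi'.1, hi'.2.1, hik.symm.reachable.trans hi'.2.2⟩]
      · have hP' : ¬ ∃ i', P k i' := by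
          rintro ⟨i', hi'⟩
          exact hP ⟨i', hi'.1, hi'.2.1, hik.reachable.trans hi'.2.2⟩
        simp only [κ]
        rw [dif_neg hP, dif_neg hP']
    have hzero : ∀ i k, i ≠ k → cc Λ i k = 0 → F.b (z i) (z k) = 0 ∧ F'.b (z' i) (z' k) = 0 := by
      intro i k hik h0
      have e1 := h.b_basic hz hik
      have e2 := h'.b_basic hz' hik
      rw [h0] at e1 e2
      exact ⟨abs_eq_zero.mp e1, abs_eq_zero.mp e2⟩
    have hsq : ∀ s : ℤ, s = 1 ∨ s = -1 → (s : ℝ) * s = 1 := by
      intro s hs
      rcases hs with hs | hs <;> rw [hs] <;> norm_num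
    let ε' : Fin n → ℤ := fun i => if i = j then 1 else ε i * κ i
    have hε'j : ε' j = 1 := by simp [ε']
    have hε'i : ∀ i, i ≠ j → ε' i = ε i * κ i := by intro i hi; simp [ε', hi]
    have hkey : ∀ i ∈ X, F.b (z i) (z j) = ε' i * ε' j * F'.b (z' i) (z' j) := by
      intro i hi
      have hij : i ≠ j := fun hh => hj (hh ▸ hi)
      rw [hε'j, hε'i i hij]
      rcases (cc_nonneg h.nonneg i j).eq_or_lt with h0 | h0
      · obtain ⟨e1, e2⟩ := hzero i j hij h0.symm
        rw [e1, e2]; ring
      · rw [hκP i i ⟨hi, h0, SimpleGraph.Reachable.refl _⟩, hτj i]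
        push_cast
        linear_combination (-(τ i : ℝ) * F'.b (z' i) (z' j)) * hsq _ (hε i)
    refine ⟨ε', ?_, ?_⟩
    · intro i
      by_cases hi : i = j
      · rw [hi, hε'j]; left; rfl
      · rw [hε'i i hi]
        rcases hε i with a | a <;> rcases hκ i with b | b <;> rw [a, b] <;> simp
    · intro i hi k hk hik
      rcases Finset.mem_insert.mp hi with hi' | hi' <;>
        rcases Finset.mem_insert.mp hk with hk' | hk'
      · exact absurd (hi'.trans hk'.symm) hik
      · rw [hi', F.comm, F'.comm, hkey k hk']; ring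
      · rw [hk', hkey i hi']
      · have hij : i ≠ j := fun hh => hj (hh ▸ hi')
        have hkj : k ≠ j := fun hh => hj (hh ▸ hk')
        rcases (cc_nonneg h.nonneg i k).eq_or_lt with h0 | h0
        · obtain ⟨e1, e2⟩ := hzero i k hik h0.symm
          rw [e1, e2]; ring
        · have hadj : (gr Λ X).Adj i k := ⟨hik, hi', hk', h0⟩
          rw [hε'i i hij, hε'i k hkj, ← hκadj i k hadj, hX i hi' k hk' hik]
          push_cast
          linear_combination (-(ε i : ℝ) * ε k * F'.b (z' i) (z' k)) * hsq _ (hκ i)

end Adapted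

end Pool.H48.Vonorm
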