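import Mathlib
import Pool.Agent.H48.Vonorm.Conorm5
import Pool.Agent.H48.Vonorm.Generic

/-!
# Forms with nonnegative conorms are determined by their vonorms
-/

set_option autoImplicit false

open Matrix

namespace Pool.H48.Vonorm

variable {n : ℕ}

/-- all shortest vectors of classes have norm given by the conorms `Λ` -/
def HasConorms (A : Matrix (Fin n) (Fin n) ℝ) (hA : A.PosDef) (Λ : (Fin n → ZMod 2) → ℝ) : Prop :=
  ∀ x, (toForm A hA).CMin x → bl A x x = fL Λ (red x)

/-- the functionals with positive conorm span -/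
lemma span_conorms (A : Matrix (Fin n) (Fin n) ℝ) (hA : A.PosDef) (Λ : (Fin n → ZMod 2) → ℝ)
    (hΛ : ∀ t, 0 ≤ Λ t) (h : HasConorms A hA Λ) :
    Submodule.span (ZMod 2) {t : Fin n → ZMod 2 | 0 < Λ t} = ⊤ := by
  by_contra hne
  obtain ⟨φ, hφ0, hφ⟩ := Submodule.exists_le_ker_of_lt_top _ (lt_top_iff_ne_top.mpr hne)
  let v : Fin n → ZMod 2 := fun i => φ (Pi.single i 1)
  have hφv : ∀ t, φ t = t ⬝ᵥ v := by
    intro t
    conv_lhs => rw [← Finset.univ_sum_single t]
    rw [map_sum]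
    unfold dotProduct
    refine Finset.sum_congr rfl fun i _ => ?_
    have : (Pi.single i (t i) : Fin n → ZMod 2) = t i • Pi.single i 1 := by
      ext k
      by_cases hk : k = i
      · subst hk; simp
      · simp [hk]
    rw [this, map_smul, smul_eq_mul]
  have hv0 : v ≠ 0 := by
    intro hv
    apply hφ0
    ext i
    have := congrFun hv i
    simpa [v] using this
  obtain ⟨x, hx⟩ := red_surj v
  obtain ⟨w, hw⟩ := (toForm A hA).exists_cmin x
  have hred : red (x + (w + w)) = v := by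
    rw [← (red_eq_iff _ _).mpr ⟨w, rfl⟩, hx]
  have h1 := h _ hw
  rw [hred] at h1
  have h2 : fL Λ v = 0 := by
    unfold fL
    apply Finset.sum_eq_zero
    intro t _
    rcases (hΛ t).eq_or_lt with h3 | h3
    · rw [← h3, zero_mul]
    · have h4 : φ t = 0 := hφ (Submodule.subset_span h3)
      rw [hφv] at h4
      rw [h4, br_zero, mul_zero]
  rw [h2] at h1
  have h5 : x + (w + w) = 0 := by
    by_contra hne'
    have := (toForm A hA).pos _ hne'
    rw [toForm_b] at this
    linarith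
  rw [h5, map_zero] at hred
  exact hv0 hred.symm

lemma exists_basis_conorms (A : Matrix (Fin n) (Fin n) ℝ) (hA : A.PosDef)
    (Λ : (Fin n → ZMod 2) → ℝ) (hΛ : ∀ t, 0 ≤ Λ t) (h : HasConorms A hA Λ) :
    ∃ M : Matrix (Fin n) (Fin n) (ZMod 2), IsUnit M ∧ ∀ i, 0 < Λ (M i) := by
  have hs := span_conorms A hA Λ hΛ h
  obtain ⟨f, hf, hspan, hli⟩ :=
    Submodule.exists_fun_fin_finrank_span_eq (ZMod 2) {t : Fin n → ZMod 2 | 0 < Λ t}
  have hn : Module.finrank (ZMod 2)
      (Submodule.span (ZMod 2) {t : Fin n → ZMod 2 | 0 < Λ t}) = n := by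
    rw [hs, finrank_top, Module.finrank_fin_fun]
  refine ⟨Matrix.of fun i => f (Fin.cast hn.symm i), ?_, fun i => hf _⟩
  rw [← Matrix.linearIndependent_rows_iff_isUnit]
  exact hli.comp _ (Fin.cast_injective hn.symm)

/-- change of coordinates -/
noncomputable def cls (M : Matrix (Fin n) (Fin n) (ZMod 2)) :
    (Fin n → ℤ) →+ (Fin n → ZMod 2) :=
  (Matrix.mulVecLin M).toAddMonoidHom.comp red

lemma cls_apply (M : Matrix (Fin n) (Fin n) (ZMod 2)) (x : Fin n → ℤ) :
    cls M x = M *ᵥ red x := rfl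

lemma adapted_cls (A : Matrix (Fin n) (Fin n) ℝ) (hA : A.PosDef)
    (Λ : (Fin n → ZMod 2) → ℝ) (hΛ : ∀ t, 0 ≤ Λ t) (h : HasConorms A hA Λ)
    (M : Matrix (Fin n) (Fin n) (ZMod 2)) (hM : IsUnit M) (hMΛ : ∀ i, 0 < Λ (M i)) :
    Adapted (toForm A hA) (cls M) (fun t => Λ (t ᵥ* M)) := by
  have hinj : Function.Injective fun v : Fin n → ZMod 2 => M *ᵥ v :=
    Matrix.mulVec_injective_iff_isUnit.mpr hM
  have hinj' : Function.Injective fun v : Fin n → ZMod 2 => v ᵥ* M :=
    Matrix.vecMul_injective_iff_isUnit.mpr hM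
  refine ⟨?_, ?_, ?_, ?_, ?_⟩
  · intro x y hxy
    rw [cls_apply, cls_apply] at hxy
    exact (red_eq_iff x y).mp (hinj hxy)
  · intro c
    obtain ⟨v, hv⟩ := (Finite.injective_iff_surjective.mp hinj) c
    obtain ⟨x, rfl⟩ := red_surj v
    exact ⟨x, hv⟩
  · intro t; exact hΛ _
  · intro i
    have : (Pi.single i 1 : Fin n → ZMod 2) ᵥ* M = M i := by
      rw [Matrix.single_one_vecMul]; rfl
    rw [this]
    exact hMΛ i
  · intro x hx
    have h1 := h x hx
    change bl A x x = _
    rw [h1]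
    unfold fL
    rw [← (Equiv.ofBijective _ ⟨hinj', Finite.injective_iff_surjective.mp hinj'⟩).sum_comp
      (fun t => Λ t * br (t ⬝ᵥ red x))]
    refine Finset.sum_congr rfl fun t _ => ?_
    rw [cls_apply, dotProduct_mulVec]
    rfl

lemma mem_closure_cols (y : Fin n → Fin n → ℤ) (x : Fin n → ℤ)
    (hx : x ∈ AddSubgroup.closure (Set.range y)) :
    ∃ p, x = (Matrix.of y)ᵀ *ᵥ p := by
  induction hx using AddSubgroup.closure_induction with
  | mem x hx =>
    obtain ⟨i, rfl⟩ := hx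
    refine ⟨Pi.single i 1, ?_⟩
    rw [mulVec_single_one]; rfl
  | zero => exact ⟨0, by rw [mulVec_zero]⟩
  | add a b _ _ ha hb =>
    obtain ⟨p, hp⟩ := ha
    obtain ⟨q, hq⟩ := hb
    exact ⟨p + q, by rw [mulVec_add, ← hp, ← hq]⟩
  | neg a _ ha =>
    obtain ⟨p, hp⟩ := ha
    exact ⟨-p, by rw [mulVec_neg, ← hp]⟩

lemma gram_of (A : Matrix (Fin n) (Fin n) ℝ) (y : Fin n → Fin n → ℤ) (i j : Fin n) :
    ((rm (Matrix.of y)ᵀ)ᵀ * A * rm (Matrix.of y)ᵀ) i j = bl A (y i) (y j) := by
  have := bl_single ((rm (Matrix.of y)ᵀ)ᵀ * A * rm (Matrix.of y)ᵀ) i j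
  rw [← this, ← bl_mulVec, mulVec_single_one, mulVec_single_one]
  rfl

/-- Two forms with the same nonnegative conorms are equivalent. -/
theorem conorm_equiv (A B : Matrix (Fin n) (Fin n) ℝ) (hA : A.PosDef) (hB : B.PosDef)
    (Λ : (Fin n → ZMod 2) → ℝ) (hΛ : ∀ t, 0 ≤ Λ t)
    (h : HasConorms A hA Λ) (h' : HasConorms B hB Λ) :
    ∃ U : Matrix (Fin n) (Fin n) ℤ, IsUnit U.det ∧
      B = (U.map (Int.cast : ℤ → ℝ))ᵀ * A * U.map (Int.cast : ℤ → ℝ) := by
  obtain ⟨M, hM, hMΛ⟩ := exists_basis_conorms A hA Λ hΛ h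
  have a := adapted_cls A hA Λ hΛ h M hM hMΛ
  have a' := adapted_cls B hB Λ hΛ h' M hM hMΛ
  obtain ⟨y, hy⟩ := a.exists_basic
  obtain ⟨z, hz⟩ := a'.exists_basic
  obtain ⟨ε, hε, hb⟩ := a.exists_signs a' hy hz Finset.univ
  have hεsq : ∀ i, (ε i : ℝ) * ε i = 1 := by
    intro i
    rcases hε i with h1 | h1 <;> rw [h1] <;> norm_num
  have hεz : ∀ i, ε i * ε i = 1 := by
    intro i
    rcases hε i with h1 | h1 <;> rw [h1] <;> norm_num
  let z' : Fin n → Fin n → ℤ := fun i => ε i • z i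
  have hG : (rm (Matrix.of y)ᵀ)ᵀ * A * rm (Matrix.of y)ᵀ =
      (rm (Matrix.of z')ᵀ)ᵀ * B * rm (Matrix.of z')ᵀ := by
    ext i j
    rw [gram_of, gram_of]
    have e1 : bl B (z' i) (z' j) = (ε i : ℝ) * ε j * bl B (z i) (z j) := by
      have e2 := Adapted.b_zsmul (toForm B hB) (ε i) (z i) (ε j • z j)
      have e3 := Adapted.b_zsmul (toForm B hB) (ε j) (z j) (z i)
      have e4 := (toForm B hB).comm (z i) (ε j • z j)
      have e5 := (toForm B hB).comm (z j) (z i)
      simp only [toForm_b] at e2 e3 e4 e5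
      simp only [z']
      rw [e2, e4, e3, e5]; ring
    rw [e1]
    by_cases hij : i = j
    · subst hij
      have n1 := a.nm_basic hy i
      have n2 := a'.nm_basic hz i
      simp only [toForm_nm] at n1 n2
      rw [n1, n2, hεsq, one_mul]
    · have := hb i (Finset.mem_univ _) j (Finset.mem_univ _) hij
      simpa using this
  have hspany : ∀ x, ∃ p, x = (Matrix.of y)ᵀ *ᵥ p := fun x =>
    mem_closure_cols y x (a.closure_basic hy x)
  have hspanz : ∀ x, ∃ p, x = (Matrix.of z')ᵀ *ᵥ p := by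
    intro x
    apply mem_closure_cols
    have h1 := a'.closure_basic hz x
    have h2 : AddSubgroup.closure (Set.range z) ≤ AddSubgroup.closure (Set.range z') := by
      rw [AddSubgroup.closure_le]
      rintro _ ⟨i, rfl⟩
      have h3 : z i = ε i • z' i := by
        simp only [z']
        rw [smul_smul, hεz, one_smul]
      rw [h3]
      exact AddSubgroup.zsmul_mem _
        (AddSubgroup.subset_closure (Set.mem_range_self (f := z') i)) _
    exact h2 h1
  apply equiv_of_reps A B hA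
  · apply rep_of_common A B hA 1 one_ne_zero _ _ hG
    intro x _
    obtain ⟨p, hp⟩ := hspany x
    exact ⟨p, (Matrix.of z')ᵀ *ᵥ p, by rw [one_smul, hp], by rw [one_smul]⟩
  · apply rep_of_common B A hB 1 one_ne_zero _ _ hG.symm
    intro x _
    obtain ⟨p, hp⟩ := hspanz x
    exact ⟨p, (Matrix.of y)ᵀ *ᵥ p, by rw [one_smul, hp], by rw [one_smul]⟩

/-- From an expression of the vonorms by subsets to `HasConorms`. -/
lemma hasConorms_of_subsets (A : Matrix (Fin n) (Fin n) ℝ) (hA : A.PosDef)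
    (L : Finset (Fin n) → ℝ)
    (h : ∀ S : Finset (Fin n), (⨅ x : Fin n → ℤ, half A S x) =
      ∑ T : Finset (Fin n), if Odd (T ∩ S).card then L T else 0) :
    HasConorms A hA (fun t => 4 * L (spt t)) := by
  classical
  intro x hx
  set S : Finset (Fin n) := spt (red x) with hS
  have hSi : ∀ i, i ∈ S ↔ x i % 2 = 1 := by
    intro i
    rw [hS, mem_spt, red_apply]
    constructor
    · intro h1
      rcases Int.emod_two_eq_zero_or_one (x i) with h2 | h2
      · exfalso; apply h1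
        rw [ZMod.intCast_zmod_eq_zero_iff_dvd]
        exact_mod_cast Int.dvd_of_emod_eq_zero h2
      · exact h2
    · intro h1 h2
      rw [ZMod.intCast_zmod_eq_zero_iff_dvd] at h2
      have : x i % 2 = 0 := Int.emod_eq_zero_of_dvd (by exact_mod_cast h2)
      omega
  have hx2 : x = ((fun i => (x i + ind S i) / 2) + (fun i => (x i + ind S i) / 2)) - ind S := by
    ext i
    simp only [Pi.sub_apply, Pi.add_apply]
    have h1 : ind S i = x i % 2 := by
      unfold ind
      rcases Int.emod_two_eq_zero_or_one (x i) with h2 | h2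
      · rw [if_neg (fun h3 => by rw [hSi] at h3; omega), h2]
      · rw [if_pos ((hSi i).mpr h2), h2]
    omega
  have e1 := iInf_half A hA S (fun i => (x i + ind S i) / 2) (hx2 ▸ hx)
  rw [← hx2, h S] at e1
  rw [← e1, Finset.mul_sum]
  unfold fL
  -- reindex
  have hbij : Function.Bijective (spt : (Fin n → ZMod 2) → Finset (Fin n)) := by
    refine ⟨fun u v => spt_inj, fun T => ⟨fun i => if i ∈ T then 1 else 0, ?_⟩⟩
    ext i
    rw [mem_spt]
    by_cases hi : i ∈ T <;> simp [hi]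
  rw [← (Equiv.ofBijective _ hbij).sum_comp]
  refine Finset.sum_congr rfl fun t _ => ?_
  simp only [Equiv.ofBijective_apply]
  have e2 : t ⬝ᵥ red x = ((spt t ∩ S).card : ZMod 2) := by
    unfold dotProduct
    have e3 : ∀ i, t i * red x i = if i ∈ spt t ∩ S then 1 else 0 := by
      intro i
      have hm : i ∈ spt t ∩ S ↔ t i ≠ 0 ∧ red x i ≠ 0 := by
        rw [Finset.mem_inter, hS, mem_spt, mem_spt]
      rcases zmod2_cases (t i) with a | a <;> rcases zmod2_cases (red x i) with b | b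
      · rw [if_neg (by rw [hm, a]; simp), a, zero_mul]
      · rw [if_neg (by rw [hm, a]; simp), a, zero_mul]
      · rw [if_neg (by rw [hm, b]; simp), b, mul_zero]
      · rw [if_pos (by rw [hm, a, b]; simp), a, b, one_mul]
    simp only [e3]
    rw [Finset.sum_ite_mem, Finset.univ_inter, Finset.sum_const, nsmul_eq_mul, mul_one]
  rw [e2]
  by_cases ho : Odd (spt t ∩ S).card
  · rw [if_pos ho]
    have : ((spt t ∩ S).card : ZMod 2) = 1 := ZMod.natCast_eq_one_iff_odd.mpr ho
    rw [this, br_one, mul_one]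
  · rw [if_neg ho]
    have : ((spt t ∩ S).card : ZMod 2) = 0 := by
      rw [ZMod.natCast_eq_zero_iff_even]
      exact Nat.not_odd_iff_even.mp ho
    rw [this, br_zero, mul_zero, mul_zero]

end Pool.H48.Vonorm
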