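import Mathlib
import Pool.Agent.H48.Vonorm.Generic

/-!
# Local injectivity of the vonorm map
-/

set_option autoImplicit false

open Matrix

namespace Pool.H48.Vonorm

variable {n : ℕ}

lemma exists_gap {α : Type*} {s : Set α} (hs : s.Finite) (g : α → ℝ) :
    ∃ γ : ℝ, 0 < γ ∧ ∀ a ∈ s, 0 < g a → γ ≤ g a := by
  induction s, hs using Set.Finite.induction_on with
  | empty => exact ⟨1, one_pos, by simp⟩
  | @insert a s _ _ ih =>
    obtain ⟨γ, hγ, h⟩ := ih
    by_cases ha : 0 < g a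
    · refine ⟨min γ (g a), lt_min hγ ha, ?_⟩
      intro b hb hgb
      rcases Set.mem_insert_iff.mp hb with rfl | hb'
      · exact min_le_right _ _
      · exact (min_le_left _ _).trans (h b hb' hgb)
    · refine ⟨γ, hγ, ?_⟩
      intro b hb hgb
      rcases Set.mem_insert_iff.mp hb with rfl | hb'
      · exact absurd hgb ha
      · exact h b hb' hgb

lemma bl_sub (A B : Matrix (Fin n) (Fin n) ℝ) (x y : Fin n → ℤ) :
    bl B x y - bl A x y = bl (B - A) x y := by
  unfold bl
  rw [sub_mulVec, dotProduct_sub]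

lemma abs_bl_le (D : Matrix (Fin n) (Fin n) ℝ) (ε : ℝ) (hD : ∀ i j, |D i j| ≤ ε)
    (x y : Fin n → ℤ) : |bl D x y| ≤ (n : ℝ) ^ 2 * ε * (‖rv x‖ * ‖rv y‖) := by
  rw [bl_eq_sum]
  calc |∑ i, ∑ j, ((x i : ℝ) * (y j : ℝ)) * D i j|
      ≤ ∑ i : Fin n, ∑ j : Fin n, (‖rv x‖ * ‖rv y‖) * ε := by
        refine (Finset.abs_sum_le_sum_abs _ _).trans (Finset.sum_le_sum fun i _ => ?_)
        refine (Finset.abs_sum_le_sum_abs _ _).trans (Finset.sum_le_sum fun j _ => ?_)
        rw [abs_mul, abs_mul]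
        have h1 : |(x i : ℝ)| ≤ ‖rv x‖ := norm_le_pi_norm (rv x) i
        have h2 : |(y j : ℝ)| ≤ ‖rv y‖ := norm_le_pi_norm (rv y) j
        exact mul_le_mul (mul_le_mul h1 h2 (abs_nonneg _) (norm_nonneg _)) (hD i j)
          (abs_nonneg _) (mul_nonneg (norm_nonneg _) (norm_nonneg _))
    _ = (n : ℝ) ^ 2 * ε * (‖rv x‖ * ‖rv y‖) := by
        simp only [Finset.sum_const, Finset.card_univ, Fintype.card_fin, nsmul_eq_mul]
        ring

lemma cmin_bound (A : Matrix (Fin n) (Fin n) ℝ) (hA : A.PosDef) :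
    ∃ R : ℝ, 0 ≤ R ∧ ∀ x, (toForm A hA).CMin x → bl A x x ≤ R := by
  have hnn : ∀ x : Fin n → ℤ, 0 ≤ bl A x x := by
    intro x
    by_cases hx : x = 0
    · rw [hx]
      exact ((toForm A hA).zero_left 0).symm.le
    · exact ((toForm A hA).pos x hx).le
  refine ⟨∑ S : Finset (Fin n), bl A (ind S) (ind S), Finset.sum_nonneg fun S _ => hnn _, ?_⟩
  intro x hx
  classical
  set S : Finset (Fin n) := Finset.univ.filter fun i => x i % 2 = 1 with hS
  have h1 : red x = red (ind S) := by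
    ext i
    rw [red_apply, red_apply]
    have h2 : ind S i = x i % 2 := by
      unfold ind
      rcases Int.emod_two_eq_zero_or_one (x i) with h | h <;> simp [hS, h]
    rw [h2]
    have := ZMod.intCast_mod (x i) 2
    exact_mod_cast this.symm
  obtain ⟨w, hw⟩ := (red_eq_iff _ _).mp h1
  have h3 := hx w
  rw [← hw] at h3
  exact h3.trans (Finset.single_le_sum (f := fun S => bl A (ind S) (ind S))
    (fun S _ => hnn _) (Finset.mem_univ S))

theorem local_injective (A : Matrix (Fin n) (Fin n) ℝ) (hA : A.PosDef) :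
    ∃ ε : ℝ, 0 < ε ∧ ∀ (B : Matrix (Fin n) (Fin n) ℝ) (hB : B.PosDef),
      (∀ i j, |B i j - A i j| < ε) → Same (toForm A hA) (toForm B hB) → B = A := by
  obtain ⟨c, hc, hlow⟩ := exists_lower A hA
  obtain ⟨R, hR, hcm⟩ := cmin_bound A hA
  have hfin := bl_finite A hA (2 * R)
  obtain ⟨γ1, hγ1, hg1⟩ := exists_gap (hfin.prod hfin)
    (fun p : (Fin n → ℤ) × (Fin n → ℤ) => bl A p.2 p.2 - bl A p.1 p.1)
  obtain ⟨γ2, hγ2, hg2⟩ := exists_gap (hfin.prod hfin)
    (fun p : (Fin n → ℤ) × (Fin n → ℤ) => |bl A p.1 p.2|)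
  set γ := min γ1 γ2 with hγ
  have hγ0 : 0 < γ := lt_min hγ1 hγ2
  set η : ℝ := min (1/2) (γ / (4 * (R + 1))) with hη
  have hη0 : 0 < η := lt_min (by norm_num) (by positivity)
  have hη1 : η ≤ 1 / 2 := min_le_left _ _
  have hη2 : η * (4 * (R + 1)) ≤ γ := by
    have : η ≤ γ / (4 * (R + 1)) := min_le_right _ _
    rwa [le_div_iff₀ (by positivity)] at this
  have hη3 : η * (2 * R) < γ := by nlinarith
  refine ⟨η * c / ((n : ℝ) ^ 2 + 1), by positivity, ?_⟩
  intro B hB hclose H
  -- estimate of the difference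
  have hest : ∀ x y : Fin n → ℤ, |bl B x y - bl A x y| ≤ η * ((bl A x x + bl A y y) / 2) := by
    intro x y
    rw [bl_sub]
    have h1 := abs_bl_le (B - A) (η * c / ((n : ℝ) ^ 2 + 1))
      (fun i j => (by rw [Matrix.sub_apply]; exact (hclose i j).le)) x y
    refine h1.trans ?_
    have h2 := hlow (rv x)
    have h3 := hlow (rv y)
    change c * ‖rv x‖ ^ 2 ≤ bl A x x at h2
    change c * ‖rv y‖ ^ 2 ≤ bl A y y at h3
    have h4 : (n : ℝ) ^ 2 * (η * c / ((n : ℝ) ^ 2 + 1)) ≤ η * c := by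
      rw [mul_div_assoc', div_le_iff₀ (by positivity)]
      nlinarith [mul_pos hη0 hc]
    have h5 : ‖rv x‖ * ‖rv y‖ ≤ (‖rv x‖ ^ 2 + ‖rv y‖ ^ 2) / 2 := by
      nlinarith [sq_nonneg (‖rv x‖ - ‖rv y‖)]
    have h6 : 0 ≤ ‖rv x‖ * ‖rv y‖ := by positivity
    calc (n : ℝ) ^ 2 * (η * c / ((n : ℝ) ^ 2 + 1)) * (‖rv x‖ * ‖rv y‖)
        ≤ η * c * (‖rv x‖ * ‖rv y‖) := mul_le_mul_of_nonneg_right h4 h6
      _ ≤ η * c * ((‖rv x‖ ^ 2 + ‖rv y‖ ^ 2) / 2) :=
          mul_le_mul_of_nonneg_left h5 (by positivity)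
      _ = η * ((c * ‖rv x‖ ^ 2 + c * ‖rv y‖ ^ 2) / 2) := by ring
      _ ≤ η * ((bl A x x + bl A y y) / 2) := by
          apply mul_le_mul_of_nonneg_left _ hη0.le
          linarith
  have hsmall : ∀ z : Fin n → ℤ, bl B z z ≤ R → bl A z z ≤ 2 * R := by
    intro z hz
    have h1 := hest z z
    have h2 := (abs_le.mp h1).1
    have h3 : 0 ≤ bl A z z := by
      have := hlow (rv z)
      change c * ‖rv z‖ ^ 2 ≤ bl A z z at this
      have : 0 ≤ c * ‖rv z‖ ^ 2 := by positivity
      linarith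
    nlinarith
  -- class-minimal vectors of `B` are class-minimal for `A`, with the same norm
  have hstep : ∀ z, (toForm B hB).CMin z → bl A z z = bl B z z := by
    intro z hz
    obtain ⟨w, hw⟩ := (toForm A hA).exists_cmin z
    have hr : red (z + (w + w)) = red z := ((red_eq_iff _ _).mpr ⟨w, rfl⟩).symm
    have e1 : bl A (z + (w + w)) (z + (w + w)) = bl B z z := H _ _ hr hw hz
    have e2 : bl A (z + (w + w)) (z + (w + w)) ≤ bl A z z := by
      have := hw (-w)
      have h3 : z + (w + w) + (-w + -w) = z := by abel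
      rwa [h3] at this
    have e3 := hcm _ hw
    have e4 : bl A z z ≤ 2 * R := hsmall z (by linarith)
    by_contra hne
    have e5 : bl A (z + (w + w)) (z + (w + w)) < bl A z z := by
      rcases e2.lt_or_eq with h | h
      · exact h
      · exact absurd (h.symm.trans e1) hne
    have e6 := hg1 (z + (w + w), z) ⟨by simp only [Set.mem_ofPred_eq]; linarith, e4⟩
      (by simp only; linarith)
    simp only at e6
    have e7 := (abs_le.mp (hest z z)).1
    have e8 : γ ≤ γ1 := min_le_left _ _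
    nlinarith
  obtain ⟨y, _, hg⟩ := exists_greedy (toForm B hB) (toForm B hB) (by
    intro y z hyz hy hz
    obtain ⟨w, hw⟩ := (red_eq_iff y z).mp hyz
    obtain ⟨w', hw'⟩ := (red_eq_iff z y).mp hyz.symm
    have h1 := hy w
    have h2 := hz w'
    rw [← hw] at h1
    rw [← hw'] at h2
    exact le_antisymm h1 h2) n le_rfl
  have hG : Greedy (toForm A hA) (toForm B hB) y y n := by
    refine ⟨hg.indep, fun _ _ => rfl, ?_, hg.minL⟩
    intro i hi x hx
    have e1 : bl A (y i) (y i) = bl B (y i) (y i) := hstep _ (hg.cminL hi)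
    obtain ⟨w1, hw1⟩ := (toForm A hA).exists_cmin x
    obtain ⟨w2, hw2⟩ := (toForm B hB).exists_cmin x
    have r1 : red x = red (x + (w1 + w1)) := (red_eq_iff _ _).mpr ⟨w1, rfl⟩
    have r2 : red x = red (x + (w2 + w2)) := (red_eq_iff _ _).mpr ⟨w2, rfl⟩
    have e2 := H _ _ (r1.symm.trans r2) hw1 hw2
    have e3 := hg.minL i hi (x + (w2 + w2)) (by rw [← r2]; exact hx)
    have e4 : (toForm A hA).nm (x + (w1 + w1)) ≤ (toForm A hA).nm x := by
      have := hw1 (-w1)
      have h3 : x + (w1 + w1) + (-w1 + -w1) = x := by abel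
      rwa [h3] at this
    simp only [toForm_nm] at e2 e3 e4 ⊢
    linarith
  have hyA : ∀ i, i < n → bl A (y i) (y i) ≤ R := fun i hi => hcm _ (hG.cminL hi)
  have hlt : ∀ i j, i < j → j < n → bl A (y i) (y j) = bl B (y i) (y j) := by
    intro i j hij hj
    have e1 : |bl A (y i) (y j)| = |bl B (y i) (y j)| := hG.abs_eq H hij hj
    rcases abs_eq_abs.mp e1 with h | h
    · exact h
    · by_cases h0 : bl A (y i) (y j) = 0
      · rw [h0] at h ⊢; linarith
      · exfalso
        have m1 := hyA i (hij.trans hj)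
        have m2 := hyA j hj
        have e2 := hg2 (y i, y j) ⟨by simp only [Set.mem_ofPred_eq]; linarith,
          by simp only [Set.mem_ofPred_eq]; linarith⟩ (by simp only; exact abs_pos.mpr h0)
        simp only at e2
        have e3 := hest (y i) (y j)
        have e4 : bl B (y i) (y j) - bl A (y i) (y j) = - (2 * bl A (y i) (y j)) := by
          rw [h]; ring
        rw [e4, abs_neg, abs_mul, abs_two] at e3
        have e5 : γ ≤ γ2 := min_le_right _ _
        nlinarith
  have hall : ∀ i j : Fin n, bl A (y i) (y j) = bl B (y i) (y j) := by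
    intro i j
    rcases lt_trichotomy i j with h | h | h
    · exact hlt i j h j.2
    · subst h
      exact hstep _ (hg.cminL i.2)
    · rw [bl_comm hA, bl_comm hB]
      exact hlt j i h i.2
  have hli := hG.linInd
  have hYodd := det_cols_odd y hli
  have hY0 : (cols y).det ≠ 0 := by
    intro h; rw [h] at hYodd; exact absurd hYodd (by decide)
  have hYu : IsUnit (rm (cols y)) := by
    rw [Matrix.isUnit_iff_isUnit_det]
    have := (Int.castRingHom ℝ).map_det (cols y)
    have h2 : (rm (cols y)).det = ((cols y).det : ℝ) := by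
      simpa [rm, RingHom.mapMatrix_apply] using this.symm
    rw [h2]
    exact isUnit_iff_ne_zero.mpr (by exact_mod_cast hY0)
  have hgr : (rm (cols y))ᵀ * B * rm (cols y) = (rm (cols y))ᵀ * A * rm (cols y) := by
    ext i j
    rw [gram_cols, gram_cols, hall i j]
  have h1 : (rm (cols y))ᵀ * B = (rm (cols y))ᵀ * A := hYu.mul_right_cancel hgr
  have hYu' : IsUnit (rm (cols y))ᵀ := by
    rw [Matrix.isUnit_transpose]; exact hYu
  exact hYu'.mul_left_cancel h1

end Pool.H48.Vonorm
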